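import Pool.Agent.Lib.MP_d3ed34_co.Core3

set_option autoImplicit false
set_option linter.unusedSectionVars false

namespace Pool.Agent.Lib.MP_d3ed34_co

open Finset NumberField

theorem inertia {R : Type*} [CommRing R] [IsDedekindDomain R] (σ : R →+* R) {w a : R} {N : ℕ}
    (hσ : ∀ x, w ∣ σ x - x) (hw : a ∣ w ^ N) (β : R) (hβ : β ∣ a ^ 2) : β ∣ σ β := by
  have key : ∀ I : Ideal R, I ∣ Ideal.span {a ^ 2} → I.map σ ≤ I := by
    intro I
    refine UniqueFactorizationMonoid.induction_on_prime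
      (P := fun I : Ideal R => I ∣ Ideal.span {a ^ 2} → I.map σ ≤ I) I ?_ ?_ ?_
    · intro _
      simp
    · intro J hJ _
      rw [Ideal.isUnit_iff] at hJ
      rw [hJ]
      exact le_top
    · intro J P _ hP ih hd
      have hPp : P.IsPrime := Ideal.isPrime_of_prime hP
      have h1 : a ^ 2 ∈ P :=
        Ideal.le_of_dvd ((dvd_mul_right P J).trans hd) (Ideal.mem_span_singleton_self _)
      have h2 : w ∈ P := hPp.mem_of_pow_mem N (P.mem_of_dvd hw (hPp.mem_of_pow_mem 2 h1))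
      have h3 : P.map σ ≤ P := by
        rw [Ideal.map_le_iff_le_comap]
        intro x hx
        have : σ x - x ∈ P := P.mem_of_dvd (hσ x) h2
        have := P.add_mem this hx
        simpa using this
      rw [Ideal.map_mul]
      exact Ideal.mul_mono h3 (ih ((dvd_mul_left J P).trans hd))
  have := key (Ideal.span {β}) (Ideal.dvd_iff_le.mpr (Ideal.span_singleton_le_span_singleton.mpr hβ))
    (Ideal.mem_map_of_mem σ (Ideal.mem_span_singleton_self β))
  exact Ideal.mem_span_singleton.mp this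

theorem congr_of_gen {R : Type*} [CommRing R] (σ : R →+* R) {ω w : R}
    (htop : Algebra.adjoin ℤ {ω} = ⊤) (h : w ∣ σ ω - ω) (x : R) : w ∣ σ x - x := by
  have hx : x ∈ Algebra.adjoin ℤ {ω} := htop ▸ Algebra.mem_top
  induction hx using Algebra.adjoin_induction with
  | mem x hx =>
    rw [Set.mem_singleton_iff.mp hx]
    exact h
  | algebraMap r => simp
  | add x y _ _ hx hy =>
    have := dvd_add hx hy
    rw [map_add]
    rwa [show σ x + σ y - (x + y) = σ x - x + (σ y - y) by ring]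
  | mul x y _ _ hx hy =>
    have := dvd_add (hx.mul_right (σ y)) (hy.mul_left x)
    rw [map_mul]
    rwa [show σ x * σ y - x * y = (σ x - x) * σ y + x * (σ y - y) by ring]

theorem pow_congr {R : Type*} [CommRing R] (ω : R) {M n : ℕ} (hn : 1 < n)
    (h : (M : ZMod n) = 1) : ω ^ n - 1 ∣ ω ^ M - ω := by
  have h1 : M ≡ 1 [MOD n] := (ZMod.natCast_eq_natCast_iff M 1 n).mp (by simpa using h)
  have h2 : 1 ≤ M := by
    rcases Nat.eq_zero_or_pos M with h0 | h0
    · rw [h0, Nat.ModEq, Nat.zero_mod, Nat.mod_eq_of_lt hn] at h1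
      omega
    · exact h0
  obtain ⟨c, hc⟩ := (Nat.modEq_iff_dvd' h2).mp h1.symm
  have h3 : M = n * c + 1 := by omega
  rw [h3, pow_succ, pow_mul, ← sub_one_mul]
  have := sub_dvd_pow_sub_pow (ω ^ n) 1 c
  rw [one_pow] at this
  exact this.mul_right _

theorem not_unit (K : Type*) [Field K] [NumberField K] {p : ℕ} (hp : p.Prime) :
    ¬ IsUnit (p : 𝓞 K) := by
  intro h
  have h1 : IsUnit (algebraMap ℤ (𝓞 K) (p : ℤ)) := by simpa using h
  exact (Nat.prime_iff_prime_int.mp hp).not_isUnit (isUnit_of_map_unit _ _ h1)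

theorem exists_good (p q : ℕ) [hp : Fact p.Prime] [hq : Fact q.Prime] (hp2 : p ≠ 2) (hq2 : q ≠ 2)
    (hpq : p ≠ q) (K : Type) [Field K] [NumberField K]
    [IsCyclotomicExtension {p ^ 2 * q ^ 2} ℚ K] :
    ∃ (e₁ : AddChar (ZMod (p ^ 2)) (𝓞 K)) (e₂ : AddChar (ZMod (q ^ 2)) (𝓞 K)), Good e₁ e₂ := by
  have hp0 : 0 < p ^ 2 := pow_pos hp.out.pos 2
  have hq0 : 0 < q ^ 2 := pow_pos hq.out.pos 2
  have hn0 : 0 < p ^ 2 * q ^ 2 := Nat.mul_pos hp0 hq0
  have : NeZero (p ^ 2 * q ^ 2) := ⟨hn0.ne'⟩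
  have hz := IsCyclotomicExtension.zeta_spec (p ^ 2 * q ^ 2) ℚ K
  have hω := hz.toInteger_isPrimitiveRoot
  have htop := IsCyclotomicExtension.Rat.adjoin_singleton_eq_top hz
  set ω := hz.toInteger
  have hζ : IsPrimitiveRoot (ω ^ (q ^ 2)) (p ^ 2) := hω.pow hn0 (mul_comm _ _)
  have hξ : IsPrimitiveRoot (ω ^ (p ^ 2)) (q ^ 2) := hω.pow hn0 rfl
  refine ⟨AddChar.zmodChar _ hζ.pow_eq_one, AddChar.zmodChar _ hξ.pow_eq_one, hp2, hq2, hpq,
    AddChar.zmodChar_primitive_of_primitive_root _ hζ,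
    AddChar.zmodChar_primitive_of_primitive_root _ hξ, not_unit K hp.out, not_unit K hq.out,
    fun m₁ m₂ h₁ h₂ => ?_⟩
  have hco : (p ^ 2).Coprime (q ^ 2) :=
    Nat.Coprime.pow 2 2 ((Nat.coprime_primes hp.out hq.out).mpr hpq)
  have hu : IsUnit ((ZMod.chineseRemainder hco).symm (m₁, m₂)) :=
    (Prod.isUnit_iff.mpr ⟨h₁, h₂⟩).map _
  set τ := (IsCyclotomicExtension.Rat.galEquivZMod (p ^ 2 * q ^ 2) K).symm hu.unit with hτ
  set M := ((ZMod.chineseRemainder hco).symm (m₁, m₂)).val with hM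
  have hσ : ∀ x : 𝓞 K, x ^ (p ^ 2 * q ^ 2) = 1 →
      MulSemiringAction.toRingHom Gal(K/ℚ) (𝓞 K) τ x = x ^ M := by
    intro x hx
    have := IsCyclotomicExtension.Rat.galEquivZMod_smul_of_pow_eq (p ^ 2 * q ^ 2) K τ hx
    rw [hτ, MulEquiv.apply_symm_apply, IsUnit.unit_spec] at this
    exact this
  have hM' : ((M : ZMod (p ^ 2)), (M : ZMod (q ^ 2))) = (m₁, m₂) := by
    have a1 : ZMod.chineseRemainder hco (M : ZMod (p ^ 2 * q ^ 2)) = (m₁, m₂) := by
      rw [hM, ZMod.natCast_zmod_val, RingEquiv.apply_symm_apply]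
    rw [map_natCast] at a1
    exact a1
  have hM1 : (M : ZMod (p ^ 2)) = m₁ := congrArg Prod.fst hM'
  have hM2 : (M : ZMod (q ^ 2)) = m₂ := congrArg Prod.snd hM'
  refine ⟨MulSemiringAction.toRingHom Gal(K/ℚ) (𝓞 K) τ, fun x => ?_, fun y => ?_, fun h => ?_,
    fun h => ?_⟩
  · rw [hσ, chr_pow, hM1, mul_comm x]
    rw [pow_mul, chr_pow]
    simp
  · rw [hσ, chr_pow, hM2, mul_comm y]
    rw [pow_mul', chr_pow]
    simp
  · refine inertia _ (w := ω ^ (q ^ 2) - 1) (N := p ^ 2) (congr_of_gen _ htop ?_)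
      (dvd_pow_sub_one hp2 hζ.pow_eq_one)
    rw [hσ ω hω.pow_eq_one]
    exact pow_congr ω (Nat.one_lt_pow two_ne_zero hq.out.one_lt) (hM2.trans h)
  · refine inertia _ (w := ω ^ (p ^ 2) - 1) (N := q ^ 2) (congr_of_gen _ htop ?_)
      (dvd_pow_sub_one hq2 hξ.pow_eq_one)
    rw [hσ ω hω.pow_eq_one]
    exact pow_congr ω (Nat.one_lt_pow two_ne_zero hp.out.one_lt) (hM1.trans h)

theorem no_pair (p q : ℕ) [hp : Fact p.Prime] [hq : Fact q.Prime] (hp2 : p ≠ 2) (hq2 : q ≠ 2)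
    (hpq : p ≠ q) (X Y : ZMod (p ^ 2) × ZMod (q ^ 2) → ℤ) (hX : ∀ g, |X g| ≤ 1)
    (hY : ∀ g, |Y g| ≤ 1)
    (h1 : ∀ c, ∑ g, X (c + g) * X g + ∑ g, Y (c + g) * Y g
      = if c = 0 then (p : ℤ) ^ 2 * (q : ℤ) ^ 2 else 0)
    (h2 : ∀ c, ∑ g, Y (c + g) * X g = 0) : False := by
  have : NeZero (p ^ 2 * q ^ 2) :=
    ⟨(Nat.mul_pos (pow_pos hp.out.pos 2) (pow_pos hq.out.pos 2)).ne'⟩
  have : IsCyclotomicExtension {p ^ 2 * q ^ 2} ℚ (CyclotomicField (p ^ 2 * q ^ 2) ℚ) :=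
    CyclotomicField.isCyclotomicExtension (p ^ 2 * q ^ 2) ℚ
  obtain ⟨e₁, e₂, hG⟩ := exists_good p q hp2 hq2 hpq (CyclotomicField (p ^ 2 * q ^ 2) ℚ)
  refine core hG (M := X) (T := Y) ⟨hX, hY, h1, fun r => ?_⟩
  have a1 : ∀ r, FZ (pc e₁ e₂) X r * FZ (pc e₁ e₂) X (-r)
      + FZ (pc e₁ e₂) Y r * FZ (pc e₁ e₂) Y (-r) = (p : 𝓞 _) ^ 2 * (q : 𝓞 _) ^ 2 := by
    intro r
    rw [← FZ_corr, ← FZ_corr, ← FZ_add]
    simp only [h1]
    rw [FZ_delta]
    simp
  have a2 : ∀ r, FZ (pc e₁ e₂) Y r * FZ (pc e₁ e₂) X (-r) = 0 := by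
    intro r
    rw [← FZ_corr]
    simp only [h2]
    simp [FZ, FT]
  by_cases hy : FZ (pc e₁ e₂) Y r = 0
  · right
    refine ⟨hy, ?_⟩
    have := a1 r
    rwa [hy, zero_mul, add_zero] at this
  · left
    have b1 : FZ (pc e₁ e₂) X (-r) = 0 := (mul_eq_zero.mp (a2 r)).resolve_left hy
    have b2 := a1 r
    rw [b1, mul_zero, zero_add] at b2
    refine ⟨?_, b2⟩
    have b3 := a2 (-r)
    rw [neg_neg] at b3
    refine (mul_eq_zero.mp b3).resolve_left fun h => ?_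
    rw [h, mul_zero] at b2
    exact pq_ne_zero b2.symm

theorem sum_quat {n : ℕ} [NeZero n] (F : QuaternionGroup n → ℤ) :
    ∑ h, F h = ∑ i, F (QuaternionGroup.a i) + ∑ i, F (QuaternionGroup.xa i) := by
  let E : ZMod (2 * n) ⊕ ZMod (2 * n) ≃ QuaternionGroup n :=
    { toFun := fun i => match i with
        | Sum.inl j => QuaternionGroup.a j
        | Sum.inr j => QuaternionGroup.xa j
      invFun := fun i => match i with
        | QuaternionGroup.a j => Sum.inl j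
        | QuaternionGroup.xa j => Sum.inr j
      left_inv := by rintro (x | x) <;> rfl
      right_inv := by rintro (x | x) <;> rfl }
  rw [← Equiv.sum_comp E, Fintype.sum_sum_type]
  rfl

theorem sum_two (f : ZMod 2 → ℤ) : ∑ ε, f ε = f 0 + f 1 := Fin.sum_univ_two f

theorem reduce {n : ℕ} [NeZero n] {G : Type*} [CommRing G] [Fintype G] [DecidableEq G]
    (E : ZMod (2 * n) ≃+* ZMod 2 × G) (hn2 : (n : ZMod 2) = 1) (hnG : (n : G) = 0)
    (φ : QuaternionGroup n → ℤ) (hφ : ∀ g, φ g = 1 ∨ φ g = -1)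
    (h : ∀ g g', ∑ k, φ (g * k) * φ (g' * k) = if g = g' then 4 * (n : ℤ) else 0) :
    ∃ X Y : G → ℤ, (∀ g, |X g| ≤ 1) ∧ (∀ g, |Y g| ≤ 1) ∧
      (∀ c, ∑ g, X (c + g) * X g + ∑ g, Y (c + g) * Y g = if c = 0 then (n : ℤ) else 0) ∧
      ∀ c, ∑ g, Y (c + g) * X g = 0 := by
  set A : ZMod 2 × G → ℤ := fun u => φ (QuaternionGroup.a (E.symm u)) with hA
  set B : ZMod 2 × G → ℤ := fun u => φ (QuaternionGroup.xa (E.symm u)) with hB
  have half : ∀ C : ZMod 2 × G → ℤ, (∀ u, C u = 1 ∨ C u = -1) →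
      ∃ X : G → ℤ, (∀ g, |X g| ≤ 1) ∧ ∀ g, C (0, g) + C (1, g) = 2 * X g := by
    intro C hC
    refine ⟨fun g => (C (0, g) + C (1, g)) / 2, fun g => ?_, fun g => ?_⟩
    · rcases hC (0, g) with h1 | h1 <;> rcases hC (1, g) with h2 | h2 <;> simp [h1, h2]
    · rcases hC (0, g) with h1 | h1 <;> rcases hC (1, g) with h2 | h2 <;> simp [h1, h2]
  obtain ⟨X, hX1, hX2⟩ := half A fun u => hφ _
  obtain ⟨Y, hY1, hY2⟩ := half B fun u => hφ _
  have h11 : (1 : ZMod 2) + 1 = 0 := by decide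
  have fold : ∀ (C D : ZMod 2 × G → ℤ) (U V : G → ℤ), (∀ g, C (0, g) + C (1, g) = 2 * U g) →
      (∀ g, D (0, g) + D (1, g) = 2 * V g) → ∀ c : G,
      ∑ u, C ((0, c) + u) * D u + ∑ u, C ((1, c) + u) * D u = 4 * ∑ g, U (c + g) * V g := by
    intro C D U V hU hV c
    rw [Fintype.sum_prod_type, Fintype.sum_prod_type, sum_two, sum_two, Finset.mul_sum,
      ← Finset.sum_add_distrib, ← Finset.sum_add_distrib, ← Finset.sum_add_distrib]
    refine Finset.sum_congr rfl fun g _ => ?_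
    simp only [Prod.mk_add_mk, add_zero, zero_add, h11]
    linear_combination (D (0, g) + D (1, g)) * hU (c + g) + 2 * U (c + g) * hV g
  have id1 : ∀ c : ZMod 2 × G, ∑ u, A (c + u) * A u + ∑ u, B (c + u) * B u
      = if c = 0 then 4 * (n : ℤ) else 0 := by
    intro c
    have a1 := h (QuaternionGroup.a (E.symm c)) (QuaternionGroup.a 0)
    rw [sum_quat] at a1
    simp only [QuaternionGroup.a_mul_a, QuaternionGroup.a_mul_xa, zero_add, sub_zero,
      QuaternionGroup.a.injEq, EmbeddingLike.map_eq_zero_iff] at a1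
    rw [← a1, ← Equiv.sum_comp E.symm.toEquiv,
      ← Equiv.sum_comp ((Equiv.addLeft c).trans E.symm.toEquiv)]
    congr 1
    · exact Finset.sum_congr rfl fun u _ => by simp [hA]
    · exact Finset.sum_congr rfl fun u _ => by simp [hB, mul_comm]
  have hEn : E.symm (1, 0) = (n : ZMod (2 * n)) := by
    apply E.injective
    rw [RingEquiv.apply_symm_apply, map_natCast]
    exact Prod.ext hn2.symm hnG.symm
  have hnn : (n : ZMod (2 * n)) + n = 0 := by
    rw [← Nat.cast_add, ← two_mul, ZMod.natCast_self]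
  have id2 : ∀ c : G, ∑ u, B ((0, c) + u) * A u + ∑ u, B ((1, c) + u) * A u = 0 := by
    intro c
    have a1 := h (QuaternionGroup.xa (E.symm (0, c))) (QuaternionGroup.a 0)
    rw [sum_quat, if_neg (fun h => by cases h)] at a1
    simp only [QuaternionGroup.a_mul_a, QuaternionGroup.a_mul_xa, QuaternionGroup.xa_mul_a,
      QuaternionGroup.xa_mul_xa, zero_add, sub_zero] at a1
    rw [← a1, ← Equiv.sum_comp E.symm.toEquiv,
      ← Equiv.sum_comp ((Equiv.addLeft ((1 : ZMod 2), c)).trans E.symm.toEquiv)]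
    congr 1
    · exact Finset.sum_congr rfl fun u _ => by simp [hA, hB]
    · refine Finset.sum_congr rfl fun u _ => ?_
      have b1 : E.symm ((1 : ZMod 2), c) = n + E.symm (0, c) := by
        rw [← hEn, ← map_add]
        simp
      have b2 : (n : ZMod (2 * n)) + E.symm (((1 : ZMod 2), c) + u) - E.symm (0, c) = E.symm u := by
        rw [map_add, b1]
        linear_combination hnn
      simp only [Equiv.trans_apply, Equiv.coe_addLeft, RingEquiv.toEquiv_eq_coe, EquivLike.coe_coe,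
        b2, hA, hB]
      ring
  refine ⟨X, Y, hX1, hY1, fun c => ?_, fun c => ?_⟩
  · have a1 := id1 (0, c)
    have a2 := id1 (1, c)
    have a3 := fold A A X X hX2 hX2 c
    have a4 := fold B B Y Y hY2 hY2 c
    rw [if_neg (fun h => one_ne_zero (congrArg Prod.fst h))] at a2
    simp only [Prod.mk_eq_zero, true_and] at a1
    split_ifs at a1 ⊢ <;> linarith
  · have a1 := id2 c
    have a3 := fold B A Y X hY2 hX2 c
    linarith

theorem main (p q : ℕ) (hp : p.Prime) (hq : q.Prime) (hp2 : p ≠ 2) (hq2 : q ≠ 2) (hpq : p ≠ q)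
    [NeZero ((p * q) ^ 2)] (φ : QuaternionGroup ((p * q) ^ 2) → ℤ) (hφ : ∀ g, φ g = 1 ∨ φ g = -1)
    (h : ∀ g g', ∑ k, φ (g * k) * φ (g' * k)
      = if g = g' then 4 * (((p * q) ^ 2 : ℕ) : ℤ) else 0) : False := by
  have := Fact.mk hp
  have := Fact.mk hq
  have hodd : Odd ((p * q) ^ 2) := ((hp.odd_of_ne_two hp2).mul (hq.odd_of_ne_two hq2)).pow
  have hco : (p ^ 2).Coprime (q ^ 2) := Nat.Coprime.pow 2 2 ((Nat.coprime_primes hp hq).mpr hpq)
  let E : ZMod (2 * (p * q) ^ 2) ≃+* ZMod 2 × (ZMod (p ^ 2) × ZMod (q ^ 2)) :=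
    (ZMod.chineseRemainder (Nat.coprime_two_left.mpr hodd)).trans
      (RingEquiv.prodCongr (RingEquiv.refl _)
        ((ZMod.ringEquivCongr (mul_pow p q 2)).trans (ZMod.chineseRemainder hco)))
  obtain ⟨X, Y, h1, h2, h3, h4⟩ := reduce E (ZMod.natCast_eq_one_iff_odd.mpr hodd) (by
    rw [mul_pow]
    ext
    · rw [Prod.fst_natCast, Nat.cast_mul, ZMod.natCast_self, zero_mul, Prod.fst_zero]
    · rw [Prod.snd_natCast, Nat.cast_mul, ZMod.natCast_self, mul_zero, Prod.snd_zero]) φ hφ h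
  refine no_pair p q hp2 hq2 hpq X Y h1 h2 (fun c => ?_) h4
  rw [h3]
  push_cast
  rw [mul_pow]

end Pool.Agent.Lib.MP_d3ed34_co
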