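import Pool.Agent.Lib.MP_d3ed34_co.LemmaA

set_option autoImplicit false
set_option linter.unusedSectionVars false

namespace Pool.Agent.Lib.MP_d3ed34_co

open Finset

variable {R : Type*} [CommRing R] [IsDomain R] [CharZero R]
variable {p q : ℕ} [hp : Fact p.Prime] [hq : Fact q.Prime]

/-- The arithmetic input: a ring with enough roots of unity and automorphisms. -/
structure Good (e₁ : AddChar (ZMod (p ^ 2)) R) (e₂ : AddChar (ZMod (q ^ 2)) R) : Prop where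
  p2 : p ≠ 2
  q2 : q ≠ 2
  pq : p ≠ q
  h₁ : e₁.IsPrimitive
  h₂ : e₂.IsPrimitive
  nu₁ : ¬ IsUnit (p : R)
  nu₂ : ¬ IsUnit (q : R)
  gal : ∀ (m₁ : ZMod (p ^ 2)) (m₂ : ZMod (q ^ 2)), IsUnit m₁ → IsUnit m₂ → ∃ σ : R →+* R,
    (∀ x, σ (e₁ x) = e₁ (m₁ * x)) ∧ (∀ y, σ (e₂ y) = e₂ (m₂ * y)) ∧
    (m₂ = 1 → ∀ β : R, β ∣ (p : R) ^ 2 → β ∣ σ β) ∧ (m₁ = 1 → ∀ β : R, β ∣ (q : R) ^ 2 → β ∣ σ β)

variable {e₁ : AddChar (ZMod (p ^ 2)) R} {e₂ : AddChar (ZMod (q ^ 2)) R}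

theorem Good.swap (h : Good e₁ e₂) : Good e₂ e₁ where
  p2 := h.q2
  q2 := h.p2
  pq := h.pq.symm
  h₁ := h.h₂
  h₂ := h.h₁
  nu₁ := h.nu₂
  nu₂ := h.nu₁
  gal := fun m₂ m₁ h₂ h₁ => by
    obtain ⟨σ, a, b, c, d⟩ := h.gal m₁ m₂ h₁ h₂
    exact ⟨σ, b, a, d, c⟩

/-- A pair of ternary functions with complementary flat spectra. -/
structure Sys (e₁ : AddChar (ZMod (p ^ 2)) R) (e₂ : AddChar (ZMod (q ^ 2)) R)
    (M T : ZMod (p ^ 2) × ZMod (q ^ 2) → ℤ) : Prop where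
  bM : ∀ g, |M g| ≤ 1
  bT : ∀ g, |T g| ≤ 1
  corr : ∀ c, ∑ g, M (c + g) * M g + ∑ g, T (c + g) * T g
    = if c = 0 then (p : ℤ) ^ 2 * (q : ℤ) ^ 2 else 0
  alt : ∀ r, (FZ (pc e₁ e₂) M r = 0 ∧
      FZ (pc e₁ e₂) T r * FZ (pc e₁ e₂) T (-r) = (p : R) ^ 2 * (q : R) ^ 2) ∨
    (FZ (pc e₁ e₂) T r = 0 ∧
      FZ (pc e₁ e₂) M r * FZ (pc e₁ e₂) M (-r) = (p : R) ^ 2 * (q : R) ^ 2)

variable {M T : ZMod (p ^ 2) × ZMod (q ^ 2) → ℤ}

theorem Sys.symm (h : Sys e₁ e₂ M T) : Sys e₁ e₂ T M where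
  bM := h.bT
  bT := h.bM
  corr := fun c => by rw [add_comm]; exact h.corr c
  alt := fun r => (h.alt r).symm

theorem Sys.swap (h : Sys e₁ e₂ M T) : Sys e₂ e₁ (fun g => M g.swap) (fun g => T g.swap) where
  bM := fun g => h.bM _
  bT := fun g => h.bT _
  corr := fun c => by
    have := h.corr c.swap
    rw [← Equiv.sum_comp (Equiv.prodComm _ _), ← Equiv.sum_comp (Equiv.prodComm _ _)
      (fun g => T (c.swap + g) * T g)] at this
    have h0 : c.swap = 0 ↔ c = 0 := by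
      constructor
      · intro h; rw [← Prod.swap_swap c, h]; rfl
      · intro h; rw [h]; rfl
    simp only [h0] at this
    rw [mul_comm ((q : ℤ) ^ 2), ← this]
    rfl
  alt := by
    rintro ⟨l, k⟩
    have := h.alt (k, l)
    rw [Prod.neg_mk] at this ⊢
    simp only [FZ_swap]
    rw [mul_comm ((q : R) ^ 2)]
    exact this

theorem pq_ne_zero : (p : R) ^ 2 * (q : R) ^ 2 ≠ 0 := by
  have h1 : (p : R) ≠ 0 := by exact_mod_cast hp.out.ne_zero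
  have h2 : (q : R) ≠ 0 := by exact_mod_cast hq.out.ne_zero
  exact mul_ne_zero (pow_ne_zero _ h1) (pow_ne_zero _ h2)

theorem Sys.norm (h : Sys e₁ e₂ M T) {r : ZMod (p ^ 2) × ZMod (q ^ 2)}
    (hr : FZ (pc e₁ e₂) M r ≠ 0) :
    FZ (pc e₁ e₂) M r * FZ (pc e₁ e₂) M (-r) = (p : R) ^ 2 * (q : R) ^ 2 :=
  ((h.alt r).resolve_left fun h' => hr h'.1).2

theorem Sys.other (h : Sys e₁ e₂ M T) {r : ZMod (p ^ 2) × ZMod (q ^ 2)}
    (hr : FZ (pc e₁ e₂) M r ≠ 0) : FZ (pc e₁ e₂) T r = 0 :=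
  ((h.alt r).resolve_left fun h' => hr h'.1).1

theorem Sys.other' (h : Sys e₁ e₂ M T) {r : ZMod (p ^ 2) × ZMod (q ^ 2)}
    (hr : FZ (pc e₁ e₂) M r = 0) : FZ (pc e₁ e₂) T r ≠ 0 := by
  intro h'
  rcases h.alt r with ⟨-, h2⟩ | ⟨-, h2⟩
  · rw [h', zero_mul] at h2
    exact pq_ne_zero h2.symm
  · rw [hr, zero_mul] at h2
    exact pq_ne_zero h2.symm

theorem Good.gal_zero (hG : Good e₁ e₂) {f : ZMod (p ^ 2) × ZMod (q ^ 2) → ℤ} {k m₁ : ZMod (p ^ 2)}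
    {l m₂ : ZMod (q ^ 2)} (h₁ : IsUnit m₁) (h₂ : IsUnit m₂) (h : FZ (pc e₁ e₂) f (k, l) = 0) :
    FZ (pc e₁ e₂) f (m₁ * k, m₂ * l) = 0 := by
  obtain ⟨σ, a, b, -, -⟩ := hG.gal m₁ m₂ h₁ h₂
  rw [← gal_FZ a b, h, map_zero]

theorem periodic_iter {A B : Type*} [CommRing A] {c : A → B} {z : A} (h : ∀ x, c (x + z) = c x)
    (x : A) (j : ℕ) : c (x + j * z) = c x := by
  induction j with
  | zero => simp
  | succ j ih =>
    have : x + ((j + 1 : ℕ) : A) * z = (x + j * z) + z := by push_cast; ring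
    rw [this, h, ih]

theorem FT_periodic (e : AddChar (ZMod (p ^ 2)) R) {c : ZMod (p ^ 2) → R}
    (hc : ∀ x, c (x + (p : ZMod (p ^ 2))) = c x) {k : ZMod (p ^ 2)}
    (hk : k * (p : ZMod (p ^ 2)) = 0) :
    FT e c k = p * ∑ i : ZMod p, c i.val * e (k * (i.val : ZMod (p ^ 2))) := by
  unfold FT
  rw [sum_split, Finset.mul_sum]
  refine Finset.sum_congr rfl fun i _ => ?_
  have : ∀ j : ℕ, c ((i.val : ZMod (p ^ 2)) + (j : ZMod (p ^ 2)) * (p : ZMod (p ^ 2)))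
      * e (k * ((i.val : ZMod (p ^ 2)) + (j : ZMod (p ^ 2)) * (p : ZMod (p ^ 2))))
      = c i.val * e (k * i.val) := by
    intro j
    rw [periodic_iter hc]
    congr 2
    linear_combination (j : ZMod (p ^ 2)) * hk
  simp only [this, Finset.sum_const, Finset.card_range, nsmul_eq_mul]

theorem not_dvd_sq (hpq : p ≠ q) : ¬ (p : ℤ) ∣ (q : ℤ) ^ 2 := by
  intro h
  have h1 := (Nat.prime_iff_prime_int.mp hp.out).dvd_of_dvd_pow h
  exact hpq ((Nat.prime_dvd_prime_iff_eq hp.out hq.out).mp (by exact_mod_cast h1))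

theorem fibA (hG : Good e₁ e₂) {Z : ZMod (p ^ 2) × ZMod (q ^ 2) → ℤ} {l : ZMod (q ^ 2)}
    (h1 : FZ (pc e₁ e₂) Z (1, l) = 0) (h0 : FZ (pc e₁ e₂) Z (0, l) = 0)
    (hN : FZ (pc e₁ e₂) Z ((p : ZMod (p ^ 2)), l) * FZ (pc e₁ e₂) Z (-((p : ZMod (p ^ 2)), l))
      = (p : R) ^ 2 * (q : R) ^ 2) : False := by
  have hpR : (p : R) ≠ 0 := by exact_mod_cast hp.out.ne_zero
  have per : ∀ m : ZMod (q ^ 2), IsUnit m → ∀ x, FZ e₂ (fun y => Z (x + (p : ZMod (p ^ 2)), y)) (m * l)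
      = FZ e₂ (fun y => Z (x, y)) (m * l) := by
    intro m hm
    refine periodic_FT hG.h₁ (f := fun x => FZ e₂ (fun y => Z (x, y)) (m * l)) fun k hk => ?_
    rw [← FZ_pc]
    have := hG.gal_zero ((chr_ne_one_iff hG.h₁ k).mp hk) hm h1
    rwa [mul_one] at this
  have p1 := per 1 isUnit_one
  have p2 := per (-1) isUnit_one.neg
  simp only [one_mul, neg_mul] at p1 p2
  rw [Prod.neg_mk, FZ_pc, FZ_pc, FT_periodic e₁ p1 r_mul_r,
    FT_periodic e₁ p2 (by rw [neg_mul, r_mul_r, neg_zero])] at hN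
  rw [FZ_pc, FT_periodic e₁ p1 (zero_mul _)] at h0
  have h0' := (mul_eq_zero.mp h0).resolve_left hpR
  simp only [zero_mul, AddChar.map_zero_eq_one, mul_one] at h0'
  have hd : (e₁ p - 1) ∣ ∑ i : ZMod p, FZ e₂ (fun y => Z ((i.val : ZMod (p ^ 2)), y)) l
      * e₁ ((p : ZMod (p ^ 2)) * i.val) := by
    rw [← sub_zero (∑ i : ZMod p, _), ← h0', ← Finset.sum_sub_distrib]
    refine Finset.dvd_sum fun i _ => ?_
    rw [← mul_sub_one, ← chr_pow]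
    have := sub_dvd_pow_sub_pow (e₁ p) 1 i.val
    rw [one_pow] at this
    exact this.mul_left _
  have hd2 : (e₁ p - 1) ∣ (((q : ℤ) ^ 2 : ℤ) : R) := by
    have a1 : (p : R) ^ 2 * ((∑ i : ZMod p, FZ e₂ (fun y => Z ((i.val : ZMod (p ^ 2)), y)) l
        * e₁ ((p : ZMod (p ^ 2)) * i.val)) * ∑ i : ZMod p,
          FZ e₂ (fun y => Z ((i.val : ZMod (p ^ 2)), y)) (-l)
            * e₁ (-(p : ZMod (p ^ 2)) * i.val)) = (p : R) ^ 2 * (q : R) ^ 2 := by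
      rw [← hN]; ring
    have a2 := mul_left_cancel₀ (pow_ne_zero 2 hpR) a1
    push_cast
    rw [← a2]
    exact hd.mul_right _
  have hw : e₁ p ^ (p ^ 2) = 1 := by
    rw [chr_pow]; simp
  exact not_dvd_sq hG.pq (lam_dvd hG.nu₁ hG.p2 hw hd2)

theorem fibB (hG : Good e₁ e₂) {Z : ZMod (p ^ 2) × ZMod (q ^ 2) → ℤ} {l : ZMod (q ^ 2)}
    (h1 : FZ (pc e₁ e₂) Z (1, l) = 0) (h0 : FZ (pc e₁ e₂) Z ((p : ZMod (p ^ 2)), l) = 0)
    (hN : FZ (pc e₁ e₂) Z (0, l) * FZ (pc e₁ e₂) Z (-(0, l)) = (p : R) ^ 2 * (q : R) ^ 2) :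
    False := by
  have hpR : (p : R) ≠ 0 := by exact_mod_cast hp.out.ne_zero
  have key : ∀ m : ZMod (q ^ 2), IsUnit m → (p : R) ^ 2 ∣ FZ (pc e₁ e₂) Z (0, m * l) := by
    intro m hm
    have a1 := FT_inv hG.h₁ (fun x => FZ e₂ (fun y => Z (x, y)) (m * l)) 0
    simp_rw [← FZ_pc] at a1
    rw [Finset.sum_eq_single 0] at a1
    · simp only [mul_zero, neg_zero, AddChar.map_zero_eq_one, mul_one, ZMod.card] at a1
      push_cast at a1
      exact ⟨_, a1⟩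
    · intro k _ hk
      rcases trichotomy k with h | ⟨m', hm', rfl⟩ | h
      · exact absurd h hk
      · rw [hG.gal_zero hm' hm h0, zero_mul]
      · have := hG.gal_zero h hm h1
        rw [mul_one] at this
        rw [this, zero_mul]
    · simp
  obtain ⟨a, ha⟩ := key 1 isUnit_one
  obtain ⟨b, hb⟩ := key (-1) isUnit_one.neg
  rw [one_mul] at ha
  rw [neg_mul, one_mul] at hb
  rw [Prod.neg_mk, neg_zero, ha, hb] at hN
  have a2 : (p : R) ^ 2 * ((p : R) * (p * a * b)) = (p : R) ^ 2 * (q : R) ^ 2 := by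
    rw [← hN]; ring
  have a3 := mul_left_cancel₀ (pow_ne_zero 2 hpR) a2
  exact not_dvd_sq hG.pq (int_dvd_of_dvd hG.nu₁ ⟨p * a * b, by push_cast; exact a3.symm⟩)

theorem fib_aux (hG : Good e₁ e₂) (hS : Sys e₁ e₂ M T) {l : ZMod (q ^ 2)}
    (h1 : FZ (pc e₁ e₂) M (1, l) = 0) :
    FZ (pc e₁ e₂) M (0, l) = 0 ↔ FZ (pc e₁ e₂) M ((p : ZMod (p ^ 2)), l) = 0 := by
  constructor
  · intro h0
    by_contra hc
    exact fibA hG h1 h0 (hS.norm hc)
  · intro h0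
    by_contra hc
    exact fibB hG h1 h0 (hS.norm hc)

theorem fib (hG : Good e₁ e₂) (hS : Sys e₁ e₂ M T) (l : ZMod (q ^ 2)) :
    FZ (pc e₁ e₂) M (0, l) = 0 ↔ FZ (pc e₁ e₂) M ((p : ZMod (p ^ 2)), l) = 0 := by
  by_cases h1 : FZ (pc e₁ e₂) M (1, l) = 0
  · exact fib_aux hG hS h1
  · have := fib_aux hG hS.symm (hS.other h1)
    constructor
    · intro h0
      by_contra hc
      exact hS.other' h0 (this.mpr (hS.other hc))
    · intro h0
      by_contra hc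
      exact hS.other' h0 (this.mp (hS.other hc))

theorem cls_unit (hG : Good e₁ e₂) {k : ZMod (p ^ 2)} (hk : IsUnit k) (l : ZMod (q ^ 2)) :
    FZ (pc e₁ e₂) M (k, l) = 0 ↔ FZ (pc e₁ e₂) M (1, l) = 0 := by
  constructor
  · intro h
    obtain ⟨u, rfl⟩ := hk
    have := hG.gal_zero (u⁻¹).isUnit isUnit_one h
    simpa using this
  · intro h
    have := hG.gal_zero hk isUnit_one h
    simpa using this

theorem cls_non (hG : Good e₁ e₂) (hS : Sys e₁ e₂ M T) {k : ZMod (p ^ 2)} (hk : ¬ IsUnit k)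
    (l : ZMod (q ^ 2)) : FZ (pc e₁ e₂) M (k, l) = 0 ↔ FZ (pc e₁ e₂) M (0, l) = 0 := by
  rcases trichotomy k with h | ⟨m, hm, rfl⟩ | h
  · rw [h]
  · rw [fib hG hS]
    constructor
    · intro h
      obtain ⟨u, rfl⟩ := hm
      have := hG.gal_zero (u⁻¹).isUnit isUnit_one h
      simpa using this
    · intro h
      have := hG.gal_zero hm isUnit_one h
      simpa using this
  · exact absurd h hk

theorem cls_unit' (hG : Good e₁ e₂) (k : ZMod (p ^ 2)) {l : ZMod (q ^ 2)} (hl : IsUnit l) :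
    FZ (pc e₁ e₂) M (k, l) = 0 ↔ FZ (pc e₁ e₂) M (k, 1) = 0 := by
  rw [← FZ_swap, ← FZ_swap e₁ e₂ M k 1]
  exact cls_unit hG.swap hl k

theorem cls_non' (hG : Good e₁ e₂) (hS : Sys e₁ e₂ M T) (k : ZMod (p ^ 2)) {l : ZMod (q ^ 2)}
    (hl : ¬ IsUnit l) : FZ (pc e₁ e₂) M (k, l) = 0 ↔ FZ (pc e₁ e₂) M (k, 0) = 0 := by
  rw [← FZ_swap, ← FZ_swap e₁ e₂ M k 0]
  exact cls_non hG.swap hS.swap hl k

/-- The character of order `q` attached to `e₂`. -/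
noncomputable def low (e₂ : AddChar (ZMod (q ^ 2)) R) : AddChar (ZMod q) R :=
  AddChar.zmodChar q (ζ := e₂ q) (by rw [chr_pow, r_mul_r, AddChar.map_zero_eq_one])

theorem low_prim (h₂ : e₂.IsPrimitive) : (low e₂).IsPrimitive := by
  apply AddChar.zmodChar_primitive_of_primitive_root
  have := (chr_prim h₂ isUnit_one).pow (pow_pos hq.out.pos 2) (a := q) (b := q) (sq q)
  rwa [chr_pow, one_mul] at this

theorem low_nat (a : ℕ) : low e₂ (a : ZMod q) = e₂ ((q : ZMod (q ^ 2)) * a) := by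
  unfold low
  rw [AddChar.zmodChar_apply', chr_pow]

theorem low_apply (y : ZMod q) : low e₂ y = e₂ ((q : ZMod (q ^ 2)) * y.val) := by
  rw [← low_nat, ZMod.natCast_zmod_val]

theorem lift_neg (l : ZMod q) :
    (q : ZMod (q ^ 2)) * ((-l).val : ZMod (q ^ 2)) = -((q : ZMod (q ^ 2)) * l.val) := by
  have h : (((-l).val + l.val : ℕ) : ZMod q) = 0 := by
    push_cast
    simp
  rw [ZMod.natCast_eq_zero_iff] at h
  obtain ⟨c, hc⟩ := h
  have h2 : (((-l).val + l.val : ℕ) : ZMod (q ^ 2)) = (q * c : ℕ) := by rw [hc]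
  push_cast at h2
  have := r_mul_r (r := q)
  linear_combination (q : ZMod (q ^ 2)) * h2 + (c : ZMod (q ^ 2)) * this

theorem lift_non (l : ZMod q) : ¬ IsUnit ((q : ZMod (q ^ 2)) * (l.val : ZMod (q ^ 2))) := by
  rw [unit_iff, not_not]
  have := r_mul_r (r := q)
  linear_combination (l.val : ZMod (q ^ 2)) * this

theorem FZ_sec {N : ZMod (p ^ 2) × ZMod (q ^ 2) → ℤ}
    (hN : ∀ x y, N (x, y + (q : ZMod (q ^ 2))) = N (x, y)) (k : ZMod (p ^ 2)) (l : ZMod q) :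
    FZ (pc e₁ e₂) N (k, (q : ZMod (q ^ 2)) * l.val)
      = q * FZ (pc e₁ (low e₂)) (fun h => N (h.1, (h.2.val : ZMod (q ^ 2)))) (k, l) := by
  rw [FZ_pc', FZ_pc', FT_periodic e₂ (fun y => by simp only [hN])
    ((not_not.mp ((unit_iff _).not.mp (lift_non l))))]
  congr 1
  unfold FT
  refine Finset.sum_congr rfl fun i _ => ?_
  congr 1
  have : l * i = ((l.val * i.val : ℕ) : ZMod q) := by
    push_cast
    simp
  rw [this, low_nat]
  push_cast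
  rw [mul_assoc]

theorem struct (hG : Good e₁ e₂) (hS : Sys e₁ e₂ M T) (h11 : FZ (pc e₁ e₂) M (1, 1) = 0)
    (h10 : FZ (pc e₁ e₂) M (1, 0) ≠ 0) :
    ∃ (e : ZMod (p ^ 2)) (W : ZMod q → ℤ),
      (∀ (x : ZMod (p ^ 2)) (y : ZMod q),
        M (x, (y.val : ZMod (q ^ 2))) - M (x + (p : ZMod (p ^ 2)), (y.val : ZMod (q ^ 2)))
        = ((if x = e then 1 else 0) - (if x + (p : ZMod (p ^ 2)) = e then 1 else 0)) * W y) ∧
      ∀ l, FZ (low e₂) W l * FZ (low e₂) W (-l) = (p : R) ^ 2 := by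
  have hψ := pc_prim hG.h₁ hG.h₂
  have hqR : (q : R) ≠ 0 := by exact_mod_cast hq.out.ne_zero
  set D : ZMod (p ^ 2) × ZMod (q ^ 2) → ℤ :=
    fun h => M h - M (h + ((p : ZMod (p ^ 2)), (0 : ZMod (q ^ 2)))) with hD
  have hDhat : ∀ k l, FZ (pc e₁ e₂) D (k, l)
      = (1 - e₁ (-(k * (p : ZMod (p ^ 2))))) * FZ (pc e₁ e₂) M (k, l) := by
    intro k l
    rw [hD, FZ_diff]
    simp
  have hper : ∀ x y, D (x, y + (q : ZMod (q ^ 2))) = D (x, y) := by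
    intro x y
    have := periodic_FZ hψ (f := D) (z := ((0 : ZMod (p ^ 2)), (q : ZMod (q ^ 2)))) (by
      rintro ⟨k, l⟩ hr
      have hl : IsUnit l := by
        rw [← chr_ne_one_iff hG.h₂]
        simpa using hr
      rw [hDhat]
      by_cases hk : IsUnit k
      · rw [(cls_unit hG hk l).mpr ((cls_unit' hG 1 hl).mpr h11), mul_zero]
      · rw [unit_iff, not_not] at hk
        rw [hk]
        simp) (x, y)
    simpa using this
  have hA : ∀ k (l : ZMod q), IsUnit k → FZ (pc e₁ e₂) M (k, (q : ZMod (q ^ 2)) * l.val)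
      = q * FZ (pc e₁ (low e₂)) (fun h => M (h.1, (h.2.val : ZMod (q ^ 2)))) (k, l) := by
    intro k l hk
    have a1 := FZ_sec (e₁ := e₁) (e₂ := e₂) hper k l
    have a2 := FZ_diff (pc e₁ (low e₂)) (fun h => M (h.1, (h.2.val : ZMod (q ^ 2))))
      ((p : ZMod (p ^ 2)), (0 : ZMod q)) (k, l)
    simp only [Prod.fst_add, Prod.snd_add, add_zero, Prod.mk_mul_mk, mul_zero, Prod.neg_mk,
      neg_zero, pc_apply, AddChar.map_zero_eq_one, mul_one] at a2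
    simp only [hD, Prod.mk_add_mk, add_zero] at a1
    rw [a2] at a1
    have a3 := hDhat k ((q : ZMod (q ^ 2)) * l.val)
    simp only [hD] at a3
    rw [a3] at a1
    have a4 : 1 - e₁ (-(k * (p : ZMod (p ^ 2)))) ≠ 0 :=
      sub_ne_zero.mpr (chr_neg_ne_one ((chr_ne_one_iff hG.h₁ k).mpr hk)).symm
    apply mul_left_cancel₀ a4
    rw [a1]
    ring
  refine lemmaA hG.p2 hG.q2 hG.pq hG.nu₁ hG.h₁ (low_prim hG.h₂) (fun m hm => ?_)
    (A := fun h => M (h.1, (h.2.val : ZMod (q ^ 2)))) (fun h => hS.bM _) (fun k l hk => ?_)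
  · obtain ⟨σ, a, b, c, -⟩ := hG.gal m 1 hm isUnit_one
    exact ⟨σ, a, fun y => by rw [low_apply, b, one_mul], c rfl⟩
  · have a1 : FZ (pc e₁ e₂) M (k, (q : ZMod (q ^ 2)) * l.val) ≠ 0 := by
      rw [Ne, cls_unit hG hk, cls_non' hG hS 1 (lift_non l)]
      exact h10
    have a2 := hS.norm a1
    rw [Prod.neg_mk, ← lift_neg, hA k l hk, hA (-k) (-l) hk.neg] at a2
    apply mul_left_cancel₀ (pow_ne_zero 2 hqR)
    linear_combination a2

end Pool.Agent.Lib.MP_d3ed34_co
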