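import Mathlib

set_option autoImplicit false

namespace Pool.Agent.Lib.MP_d3ed34_co

theorem small5 : ∀ a ∈ [(-2 : ℤ), -1, 0, 1, 2], ∀ b ∈ [(-2 : ℤ), -1, 0, 1, 2],
    ∀ c ∈ [(-2 : ℤ), -1, 0, 1, 2], ∀ d ∈ [(-2 : ℤ), -1, 0, 1, 2], ∀ e ∈ [(-2 : ℤ), -1, 0, 1, 2],
    a * a + b * b + c * c + d * d + e * e = 9 → b * a + c * b + d * c + e * d + a * e = 0 →
    c * a + d * b + e * c + a * d + b * e ≠ 0 := by
  decide +kernel

theorem small7 : ∀ a ∈ [(-2 : ℤ), -1, 0, 1, 2], ∀ b ∈ [(-2 : ℤ), -1, 0, 1, 2],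
    ∀ c ∈ [(-2 : ℤ), -1, 0, 1, 2], ∀ d ∈ [(-2 : ℤ), -1, 0, 1, 2], ∀ e ∈ [(-2 : ℤ), -1, 0, 1, 2],
    ∀ f ∈ [(-2 : ℤ), -1, 0, 1, 2], ∀ g ∈ [(-2 : ℤ), -1, 0, 1, 2],
    a * a + b * b + c * c + d * d + e * e + f * f + g * g = 9 →
    b * a + c * b + d * c + e * d + f * e + g * f + a * g = 0 →
    c * a + d * b + e * c + f * d + g * e + a * f + b * g = 0 →
    d * a + e * b + f * c + g * d + a * e + b * f + c * g ≠ 0 := by
  decide +kernel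

theorem mem_five {a : ℤ} (h : |a| ≤ 2) : a ∈ [(-2 : ℤ), -1, 0, 1, 2] := by
  have := abs_le.mp h
  simp only [List.mem_cons, List.not_mem_nil, or_false]
  omega

theorem no5 {W : Fin 5 → ℤ} (h4 : ∀ y, |W y| ≤ 2)
    (h5 : ∀ c, ∑ y, W (c + y) * W y = if c = 0 then (9 : ℤ) else 0) : False := by
  have a0 := h5 0
  have a1 := h5 1
  have a2 := h5 2
  rw [if_neg (by decide)] at a1 a2
  rw [if_pos rfl] at a0
  rw [Fin.sum_univ_five] at a0 a1 a2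
  exact small5 (W 0) (mem_five (h4 _)) (W 1) (mem_five (h4 _)) (W 2) (mem_five (h4 _))
    (W 3) (mem_five (h4 _)) (W 4) (mem_five (h4 _)) a0 a1 a2

theorem no7 {W : Fin 7 → ℤ} (h4 : ∀ y, |W y| ≤ 2)
    (h5 : ∀ c, ∑ y, W (c + y) * W y = if c = 0 then (9 : ℤ) else 0) : False := by
  have a0 := h5 0
  have a1 := h5 1
  have a2 := h5 2
  have a3 := h5 3
  rw [if_neg (by decide)] at a1 a2 a3
  rw [if_pos rfl] at a0
  rw [Fin.sum_univ_seven] at a0 a1 a2 a3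
  exact small7 (W 0) (mem_five (h4 _)) (W 1) (mem_five (h4 _)) (W 2) (mem_five (h4 _))
    (W 3) (mem_five (h4 _)) (W 4) (mem_five (h4 _)) (W 5) (mem_five (h4 _)) (W 6)
    (mem_five (h4 _)) a0 a1 a2 a3

end Pool.Agent.Lib.MP_d3ed34_co
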