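import Pool.Agent.Lib.MP_d3ed34_co.Classes
import Pool.Agent.Lib.MP_d3ed34_co.Small

set_option autoImplicit false
set_option linter.unusedSectionVars false

namespace Pool.Agent.Lib.MP_d3ed34_co

open Finset

variable {R : Type*} [CommRing R] [IsDomain R] [CharZero R]
variable {p q : ℕ} [hp : Fact p.Prime] [hq : Fact q.Prime]
variable {e₁ : AddChar (ZMod (p ^ 2)) R} {e₂ : AddChar (ZMod (q ^ 2)) R}
variable {M T : ZMod (p ^ 2) × ZMod (q ^ 2) → ℤ}

theorem odd_sum {ι : Type*} (s : Finset ι) (t : ι → ℤ) (hs : Odd s.card) (h : ∑ i ∈ s, t i = 0) :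
    Odd (∑ i ∈ s, (1 - t i ^ 2)) := by
  have h1 : ∑ i ∈ s, (1 - t i ^ 2) = (s.card : ℤ) - ∑ i ∈ s, t i * (t i - 1) - ∑ i ∈ s, t i := by
    rw [Finset.card_eq_sum_ones]
    push_cast
    rw [← Finset.sum_sub_distrib, ← Finset.sum_sub_distrib]
    exact Finset.sum_congr rfl fun i _ => by ring
  rw [h1, h, sub_zero]
  exact Odd.sub_even (by exact_mod_cast hs)
    (Finset.even_sum _ fun i _ => Int.even_mul_pred_self _)

theorem one_sub_sq_nonneg {t : ℤ} (h : |t| ≤ 1) : 0 ≤ 1 - t ^ 2 := by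
  have := abs_le.mp h
  nlinarith [this.1, this.2]

theorem odd_pos {ι : Type*} (s : Finset ι) (t : ι → ℤ) (hs : Odd s.card) (hb : ∀ i, |t i| ≤ 1)
    (h : ∑ i ∈ s, t i = 0) : 1 ≤ ∑ i ∈ s, (1 - t i ^ 2) := by
  have h1 := odd_sum s t hs h
  have h2 : 0 ≤ ∑ i ∈ s, (1 - t i ^ 2) := Finset.sum_nonneg fun i _ => one_sub_sq_nonneg (hb i)
  obtain ⟨k, hk⟩ := h1
  omega

theorem nat_mul_eq_zero_iff (j : ℕ) : (j : ZMod (p ^ 2)) * (p : ZMod (p ^ 2)) = 0 ↔ p ∣ j := by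
  rw [← not_iff_not, ← Ne, ← unit_iff, ZMod.isUnit_natCast_iff_not_dvd_pow hp.out (by norm_num)]

theorem sum_ind (e : ZMod (p ^ 2)) (a : ℤ) :
    ∑ j ∈ range p, (if e + (j : ZMod (p ^ 2)) * (p : ZMod (p ^ 2)) = e then 1 else 0) * a = a := by
  rw [Finset.sum_eq_single 0]
  · simp
  · intro j hj hj0
    rw [if_neg, zero_mul]
    intro h
    have : (j : ZMod (p ^ 2)) * (p : ZMod (p ^ 2)) = 0 := by linear_combination h
    rw [nat_mul_eq_zero_iff] at this
    exact absurd (Nat.le_of_dvd (Nat.pos_of_ne_zero hj0) this) (by simpa using hj)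
  · intro h
    exact absurd (by simpa using hp.out.pos) h

/-- Consequences of the structure theorem. -/
theorem struct' (hG : Good e₁ e₂) (hS : Sys e₁ e₂ M T) (h11 : FZ (pc e₁ e₂) M (1, 1) = 0)
    (h10 : FZ (pc e₁ e₂) M (1, 0) ≠ 0) :
    ∃ (e : ZMod (p ^ 2)) (W : ZMod q → ℤ) (V : ZMod (p ^ 2) → ZMod q → ℤ),
      (∀ x y, M (x, (y.val : ZMod (q ^ 2))) = V x y + (if x = e then 1 else 0) * W y) ∧
      (∀ x y (j : ℕ), V (x + j * (p : ZMod (p ^ 2))) y = V x y) ∧ (∀ y, |V e y| ≤ 1) ∧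
      (∀ y, |W y| ≤ 2) ∧ (∀ c, ∑ y, W (c + y) * W y = if c = 0 then (p : ℤ) ^ 2 else 0) := by
  obtain ⟨e, W, h1, h2⟩ := struct hG hS h11 h10
  have hne : e + (p : ZMod (p ^ 2)) ≠ e := by simpa using r_ne_zero
  refine ⟨e, W, fun x y => M (x, (y.val : ZMod (q ^ 2))) - (if x = e then 1 else 0) * W y,
    fun x y => by ring, fun x y j => ?_, fun y => ?_, fun y => ?_, fun c => ?_⟩
  · exact periodic_iter
      (c := fun x => M (x, (y.val : ZMod (q ^ 2))) - (if x = e then 1 else 0) * W y)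
      (fun x => by linear_combination -(h1 x y)) x j
  · have a1 := h1 e y
    rw [if_pos rfl, if_neg hne] at a1
    have a2 : M (e, (y.val : ZMod (q ^ 2))) - (if e = e then 1 else 0) * W y
        = M (e + (p : ZMod (p ^ 2)), (y.val : ZMod (q ^ 2))) := by
      rw [if_pos rfl]
      linear_combination a1
    change |M (e, (y.val : ZMod (q ^ 2))) - (if e = e then 1 else 0) * W y| ≤ 1
    rw [a2]
    exact hS.bM _
  · have a1 := h1 e y
    rw [if_pos rfl, if_neg hne] at a1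
    have b1 := abs_le.mp (hS.bM (e, (y.val : ZMod (q ^ 2))))
    have b2 := abs_le.mp (hS.bM (e + (p : ZMod (p ^ 2)), (y.val : ZMod (q ^ 2))))
    rw [abs_le]
    constructor <;> linarith [b1.1, b1.2, b2.1, b2.2]
  · refine FZ_ext (low_prim hG.h₂) (f := fun c => ∑ y, W (c + y) * W y)
      (g := fun c => if c = 0 then (p : ℤ) ^ 2 else 0) (fun l => ?_) c
    rw [FZ_corr, FZ_delta, h2]
    simp

theorem sq_le_four (hG : Good e₁ e₂) (hS : Sys e₁ e₂ M T) (h11 : FZ (pc e₁ e₂) M (1, 1) = 0)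
    (h10 : FZ (pc e₁ e₂) M (1, 0) ≠ 0) : p ^ 2 ≤ 4 * q := by
  obtain ⟨e, W, V, -, -, -, h4, h5⟩ := struct' hG hS h11 h10
  have a1 := h5 0
  simp only [zero_add, if_true] at a1
  have a2 : ∑ y, W y * W y ≤ ∑ _y : ZMod q, (4 : ℤ) :=
    Finset.sum_le_sum fun y _ => by
      have := abs_le.mp (h4 y)
      nlinarith [this.1, this.2]
  rw [a1] at a2
  simp only [Finset.sum_const, Finset.card_univ, ZMod.card, nsmul_eq_mul] at a2
  have : (p : ℤ) ^ 2 ≤ 4 * q := by linarith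
  exact_mod_cast this

theorem case_both (hG : Good e₁ e₂) (hS : Sys e₁ e₂ M T) (h11 : FZ (pc e₁ e₂) M (1, 1) = 0)
    (h10 : FZ (pc e₁ e₂) M (1, 0) ≠ 0) (h01 : FZ (pc e₁ e₂) M (0, 1) ≠ 0) : False := by
  have a1 := sq_le_four hG hS h11 h10
  have a2 := sq_le_four hG.swap hS.swap (by rw [FZ_swap]; exact h11) (by rw [FZ_swap]; exact h01)
  have b1 := hp.out.two_le
  have b2 := hq.out.two_le
  have b3 := hG.p2
  have b4 := hG.q2
  have b5 := hG.pq
  have c1 : p ≤ 4 := by nlinarith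
  have c2 : q ≤ 4 := by nlinarith
  have d1 : p ≠ 4 := fun h => by have := hp.out; rw [h] at this; norm_num at this
  have d2 : q ≠ 4 := fun h => by have := hq.out; rw [h] at this; norm_num at this
  omega

theorem pc_fst (h₁ : e₁.IsPrimitive) {B : Type*} [CommRing B] (e : AddChar B R)
    (r : ZMod (p ^ 2) × B) : pc e₁ e (r * ((p : ZMod (p ^ 2)), (0 : B))) ≠ 1 ↔ IsUnit r.1 := by
  rw [← chr_ne_one_iff h₁]
  simp

theorem pc_snd (h₂ : e₂.IsPrimitive) {A : Type*} [CommRing A] (e : AddChar A R)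
    (r : A × ZMod (q ^ 2)) : pc e e₂ (r * ((0 : A), (q : ZMod (q ^ 2)))) ≠ 1 ↔ IsUnit r.2 := by
  rw [← chr_ne_one_iff h₂]
  simp

theorem case_only (hG : Good e₁ e₂) (hS : Sys e₁ e₂ M T) (h11 : FZ (pc e₁ e₂) M (1, 1) = 0)
    (h10 : FZ (pc e₁ e₂) M (1, 0) ≠ 0) (h01 : FZ (pc e₁ e₂) M (0, 1) = 0)
    (h00 : FZ (pc e₁ e₂) M (0, 0) = 0) : False := by
  obtain ⟨e, W, V, h1, h2, -, h4, h5⟩ := struct' hG hS h11 h10
  have hsum := psum_zero (pc_prim hG.h₁ hG.h₂) (f := M)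
    (z := ((p : ZMod (p ^ 2)), (0 : ZMod (q ^ 2)))) (p := p)
    (by ext <;> simp [r_mul_r]) (by
      rintro ⟨k, l⟩ hr
      have hk : ¬ IsUnit k := fun hk => (pc_fst hG.h₁ e₂ (k, l)).mpr hk hr
      rw [cls_non hG hS hk]
      by_cases hl : IsUnit l
      · rw [cls_unit' hG 0 hl]; exact h01
      · rw [cls_non' hG hS 0 hl]; exact h00)
  have hW : ∀ y, W y = 0 := by
    intro y
    have a1 := hsum (e, (y.val : ZMod (q ^ 2)))
    have a2 : ∀ j : ℕ, ((e, (y.val : ZMod (q ^ 2))) : ZMod (p ^ 2) × ZMod (q ^ 2))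
        + (j : ZMod (p ^ 2) × ZMod (q ^ 2)) * ((p : ZMod (p ^ 2)), (0 : ZMod (q ^ 2)))
        = (e + j * (p : ZMod (p ^ 2)), (y.val : ZMod (q ^ 2))) := by
      intro j
      ext <;> simp
    simp only [a2, h1, h2] at a1
    rw [Finset.sum_add_distrib, sum_ind] at a1
    simp only [Finset.sum_const, Finset.card_range, nsmul_eq_mul] at a1
    have b1 := abs_le.mp (h4 y)
    have b2 : (3 : ℤ) ≤ p := by
      have := hp.out.two_le
      have := hG.p2
      omega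
    rcases lt_trichotomy (V e y) 0 with h | h | h
    · nlinarith [b1.1, b1.2]
    · rw [h] at a1; linarith
    · nlinarith [b1.1, b1.2]
  have a1 := h5 0
  simp only [hW, mul_zero, Finset.sum_const_zero, if_true] at a1
  have : (p : ℤ) ≠ 0 := by exact_mod_cast hp.out.ne_zero
  exact pow_ne_zero 2 this a1.symm

end Pool.Agent.Lib.MP_d3ed34_co
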