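import Pool.Agent.Lib.MP_d3ed34_co.Core

set_option autoImplicit false
set_option linter.unusedSectionVars false

namespace Pool.Agent.Lib.MP_d3ed34_co

open Finset

variable {R : Type*} [CommRing R] [IsDomain R] [CharZero R]
variable {p q : ℕ} [hp : Fact p.Prime] [hq : Fact q.Prime]
variable {e₁ : AddChar (ZMod (p ^ 2)) R} {e₂ : AddChar (ZMod (q ^ 2)) R}
variable {M T : ZMod (p ^ 2) × ZMod (q ^ 2) → ℤ}

theorem zeros_eq (hS : Sys e₁ e₂ M T) : ∑ g, (1 - T g ^ 2) = ∑ g, M g ^ 2 := by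
  have := hS.corr 0
  simp only [zero_add, if_true] at this
  rw [Finset.sum_sub_distrib]
  simp only [Finset.sum_const, Finset.card_univ, Fintype.card_prod, ZMod.card, nsmul_eq_mul,
    mul_one, sq]
  push_cast
  linear_combination -this

theorem pair_nz (hG : Good e₁ e₂) (hS : Sys e₁ e₂ M T)
    (h10 : FZ (pc e₁ e₂) M (1, 0) ≠ 0) (h00 : FZ (pc e₁ e₂) M (0, 0) ≠ 0) (k : ZMod (p ^ 2))
    {l : ZMod (q ^ 2)} (hl : ¬ IsUnit l) : FZ (pc e₁ e₂) M (k, l) ≠ 0 := by
  rw [Ne, cls_non' hG hS k hl]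
  by_cases hk : IsUnit k
  · rw [cls_unit hG hk]; exact h10
  · rw [cls_non hG hS hk]; exact h00

theorem pair_z (hG : Good e₁ e₂) (hS : Sys e₁ e₂ M T) (h11 : FZ (pc e₁ e₂) M (1, 1) = 0)
    (h01 : FZ (pc e₁ e₂) M (0, 1) = 0) (k : ZMod (p ^ 2))
    {l : ZMod (q ^ 2)} (hl : IsUnit l) : FZ (pc e₁ e₂) M (k, l) = 0 := by
  rw [cls_unit' hG k hl]
  by_cases hk : IsUnit k
  · rw [cls_unit hG hk]; exact h11
  · rw [cls_non hG hS hk]; exact h01

theorem pair_M (hG : Good e₁ e₂) (hS : Sys e₁ e₂ M T) (h11 : FZ (pc e₁ e₂) M (1, 1) = 0)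
    (h10 : FZ (pc e₁ e₂) M (1, 0) ≠ 0) (h01 : FZ (pc e₁ e₂) M (0, 1) = 0)
    (h00 : FZ (pc e₁ e₂) M (0, 0) ≠ 0) : ∑ g, M g ^ 2 = (p : ℤ) ^ 2 * q ∧ p ^ 2 < q := by
  have hψ := pc_prim hG.h₁ hG.h₂
  have hqR : (q : R) ≠ 0 := by exact_mod_cast hq.out.ne_zero
  have hper : ∀ x y, M (x, y + (q : ZMod (q ^ 2))) = M (x, y) := by
    intro x y
    have := periodic_FZ hψ (f := M) (z := ((0 : ZMod (p ^ 2)), (q : ZMod (q ^ 2)))) (by
      rintro ⟨k, l⟩ hr
      exact pair_z hG hS h11 h01 k ((pc_snd hG.h₂ e₁ (k, l)).mp hr)) (x, y)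
    simpa using this
  have hA : ∑ h : ZMod (p ^ 2) × ZMod q, M (h.1, (h.2.val : ZMod (q ^ 2))) ^ 2 = (p : ℤ) ^ 2 := by
    refine sumsq_of_const (pc_prim hG.h₁ (low_prim hG.h₂))
      (f := fun h => M (h.1, (h.2.val : ZMod (q ^ 2)))) ?_
    rintro ⟨k, l⟩
    have a2 := hS.norm (pair_nz hG hS h10 h00 k (lift_non l))
    rw [Prod.neg_mk, ← lift_neg, FZ_sec hper, FZ_sec hper] at a2
    apply mul_left_cancel₀ (pow_ne_zero 2 hqR)
    rw [Prod.neg_mk]
    push_cast
    linear_combination a2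
  constructor
  · rw [Fintype.sum_prod_type] at hA ⊢
    rw [← hA, Finset.sum_mul]
    refine Finset.sum_congr rfl fun x _ => ?_
    rw [sum_split, Finset.sum_mul]
    refine Finset.sum_congr rfl fun i _ => ?_
    have : ∀ j : ℕ, M (x, (i.val : ZMod (q ^ 2)) + (j : ZMod (q ^ 2)) * (q : ZMod (q ^ 2)))
        = M (x, (i.val : ZMod (q ^ 2))) := fun j => periodic_iter (c := fun y => M (x, y)) (hper x) _ j
    simp only [this, Finset.sum_const, Finset.card_range, nsmul_eq_mul]
    ring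
  · obtain ⟨e, W, V, h1, h2, h3, h4, h5⟩ := struct' hG hS h11 h10
    have hW : ∑ y, W y * W y = (p : ℤ) ^ 2 := by simpa using h5 0
    have hne : p ^ 2 ≠ q := by
      intro h
      have := hq.out
      rw [← h, sq] at this
      exact Nat.not_prime_mul hp.out.one_lt.ne' hp.out.one_lt.ne' this
    by_cases hp3 : p = 3
    · subst hp3
      have b2 := hq.out.two_le
      have b4 := hG.q2
      have b5 := hG.pq
      by_contra hlt
      have hq9 : q < 9 := by omega
      have hqp := hq.out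
      interval_cases q
      · exact b4 rfl
      · exact b5 rfl
      · norm_num at hqp
      · exact no5 (W := W) h4 h5
      · norm_num at hqp
      · exact no7 (W := W) h4 h5
      · norm_num at hqp
    have hp5 : (5 : ℤ) ≤ p := by
      have b1 := hp.out.two_le
      have b3 := hG.p2
      have d1 : p ≠ 4 := fun h => by have := hp.out; rw [h] at this; norm_num at this
      omega
    have hcol : ∀ y, (p : ℤ) * V e y ^ 2 + (2 * V e y * W y + W y * W y)
        ≤ ∑ x, M (x, (y.val : ZMod (q ^ 2))) ^ 2 := by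
      intro y
      have a1 : ∑ x, M (x, (y.val : ZMod (q ^ 2))) ^ 2
          = ∑ x, V x y ^ 2 + (2 * V e y * W y + W y * W y) := by
        have : ∀ x, M (x, (y.val : ZMod (q ^ 2))) ^ 2
            = V x y ^ 2 + if x = e then (2 * V e y * W y + W y * W y) else 0 := by
          intro x
          rw [h1]
          split_ifs with h
          · rw [h]; ring
          · ring
        simp only [this, Finset.sum_add_distrib, Finset.sum_ite_eq', Finset.mem_univ, if_true]
      have a2 : (p : ℤ) * V e y ^ 2 ≤ ∑ x, V x y ^ 2 := by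
        rw [← Equiv.sum_comp (Equiv.addLeft e), sum_split]
        refine le_trans (le_of_eq ?_) (Finset.single_le_sum
          (fun i _ => Finset.sum_nonneg fun j _ => sq_nonneg _) (Finset.mem_univ (0 : ZMod p)))
        simp [h2]
      linarith
    have hsum := Finset.sum_le_sum (s := Finset.univ) fun y _ => hcol y
    rw [Finset.sum_comm, ← Fintype.sum_prod_type
      (f := fun h : ZMod (p ^ 2) × ZMod q => M (h.1, (h.2.val : ZMod (q ^ 2))) ^ 2), hA] at hsum
    have hsum2 : ∑ y, V e y ^ 2 ≤ 0 := by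
      have a1 : ∑ y, (V e y ^ 2 + W y * W y)
          ≤ ∑ y, ((p : ℤ) * V e y ^ 2 + (2 * V e y * W y + W y * W y)) := by
        refine Finset.sum_le_sum fun y _ => ?_
        have b1 := abs_le.mp (h3 y)
        have b2 := abs_le.mp (h4 y)
        have b3 : V e y = -1 ∨ V e y = 0 ∨ V e y = 1 := by omega
        rcases b3 with h | h | h <;> rw [h] <;> nlinarith [b2.1, b2.2]
      rw [Finset.sum_add_distrib, hW] at a1
      linarith
    have hV : ∀ y, V e y = 0 := by
      intro y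
      have := Finset.single_le_sum (f := fun y => V e y ^ 2) (fun y _ => sq_nonneg _)
        (Finset.mem_univ y)
      exact pow_eq_zero_iff two_ne_zero |>.mp (le_antisymm (this.trans hsum2) (sq_nonneg _))
    have a2 : ∑ y, W y * W y ≤ ∑ _y : ZMod q, (1 : ℤ) :=
      Finset.sum_le_sum fun y _ => by
        have a := h1 e y
        rw [hV, if_pos rfl, zero_add, one_mul] at a
        have := abs_le.mp (hS.bM (e, (y.val : ZMod (q ^ 2))))
        rw [a] at this
        nlinarith [this.1, this.2]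
    rw [hW] at a2
    simp only [Finset.sum_const, Finset.card_univ, ZMod.card, nsmul_eq_mul, mul_one] at a2
    have : p ^ 2 ≤ q := by exact_mod_cast a2
    omega

theorem two_le_sumsq {ι : Type*} (s : Finset ι) (d : ι → ℤ) (h : ∑ i ∈ s, d i = 0)
    (hne : ∃ i ∈ s, d i ≠ 0) : 2 ≤ ∑ i ∈ s, d i ^ 2 := by
  have h1 : Even (∑ i ∈ s, d i ^ 2) := by
    have : ∑ i ∈ s, d i ^ 2 = ∑ i ∈ s, d i * (d i - 1) + ∑ i ∈ s, d i := by
      rw [← Finset.sum_add_distrib]
      exact Finset.sum_congr rfl fun i _ => by ring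
    rw [this, h, add_zero]
    exact Finset.even_sum _ fun i _ => Int.even_mul_pred_self _
  obtain ⟨i, hi, hi0⟩ := hne
  have h2 := Finset.single_le_sum (f := fun i => d i ^ 2) (fun i _ => sq_nonneg _) hi
  have h3 := sq_pos_of_ne_zero hi0
  obtain ⟨k, hk⟩ := h1
  omega

theorem case_pair (hG : Good e₁ e₂) (hS : Sys e₁ e₂ M T) (h11 : FZ (pc e₁ e₂) M (1, 1) = 0)
    (h10 : FZ (pc e₁ e₂) M (1, 0) ≠ 0) (h01 : FZ (pc e₁ e₂) M (0, 1) = 0)
    (h00 : FZ (pc e₁ e₂) M (0, 0) ≠ 0) : False := by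
  obtain ⟨hM, hlt⟩ := pair_M hG hS h11 h10 h01 h00
  have hψ := pc_prim hG.h₁ hG.h₂
  have hqZ : (0 : ℤ) < q := by exact_mod_cast hq.out.pos
  have hqs : ∀ x y, ∑ j ∈ range q, T (x, y + (j : ZMod (q ^ 2)) * (q : ZMod (q ^ 2))) = 0 := by
    intro x y
    have a1 := psum_zero hψ (f := T) (z := ((0 : ZMod (p ^ 2)), (q : ZMod (q ^ 2)))) (p := q)
      (by ext <;> simp [r_mul_r]) (by
        rintro ⟨k, l⟩ hr
        have hl : ¬ IsUnit l := fun hl => (pc_snd hG.h₂ e₁ (k, l)).mpr hl hr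
        exact hS.other (pair_nz hG hS h10 h00 k hl)) (x, y)
    have a2 : ∀ j : ℕ, ((x, y) : ZMod (p ^ 2) × ZMod (q ^ 2))
        + (j : ZMod (p ^ 2) × ZMod (q ^ 2)) * ((0 : ZMod (p ^ 2)), (q : ZMod (q ^ 2)))
        = (x, y + j * (q : ZMod (q ^ 2))) := by
      intro j
      ext <;> simp
    simpa only [a2] using a1
  set N : ZMod q → ℤ := fun i => ∑ x, ∑ j ∈ range q,
    (1 - T (x, (i.val : ZMod (q ^ 2)) + (j : ZMod (q ^ 2)) * (q : ZMod (q ^ 2))) ^ 2) with hN
  have hN1 : ∀ i, (p : ℤ) ^ 2 ≤ N i := by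
    intro i
    have : ∑ _x : ZMod (p ^ 2), (1 : ℤ) ≤ N i := Finset.sum_le_sum fun x _ =>
      odd_pos (range q) _ (by simpa using hq.out.odd_of_ne_two hG.q2) (fun j => hS.bT _) (hqs x _)
    simpa using this
  have hN2 : ∑ i, N i = (p : ℤ) ^ 2 * q := by
    rw [← hM, ← zeros_eq hS, Fintype.sum_prod_type, hN, Finset.sum_comm]
    exact Finset.sum_congr rfl fun x _ => (sum_split (fun y => 1 - T (x, y) ^ 2)).symm
  have hN3 : ∀ i, N i = (p : ℤ) ^ 2 := by
    have a1 : ∑ i, (N i - (p : ℤ) ^ 2) = 0 := by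
      rw [Finset.sum_sub_distrib, hN2]
      simp [mul_comm]
    intro i
    have := (Finset.sum_eq_zero_iff_of_nonneg (fun i _ => sub_nonneg.mpr (hN1 i))).mp a1 i
      (Finset.mem_univ i)
    linarith
  set U : ZMod (q ^ 2) → ℤ := fun y => ∑ x, T (x, y) with hU
  have hUN : ∀ l, IsUnit l → FZ e₂ U l * FZ e₂ U (-l) = (p : R) ^ 2 * (q : R) ^ 2 := by
    intro l hl
    have := hS.symm.norm (hS.other' (pair_z hG hS h11 h01 0 hl))
    rwa [Prod.neg_mk, neg_zero, FZ_pc_zero_left, FZ_pc_zero_left] at this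
  have hd := lemD1 hG.nu₂ hG.q2 hG.h₂ U (by rw [hUN 1 isUnit_one]; exact Dvd.intro_left _ rfl)
  have hen := energy hG.h₂ (f := U) r_ne_zero (c := (p : ℤ) ^ 2 * (q : ℤ) ^ 2)
    (fun l hl => by rw [hUN l ((chr_ne_one_iff hG.h₂ l).mp hl)]; push_cast; ring)
  choose d hd using hd
  have hd2 : ∑ y, d y ^ 2 = 2 * (p : ℤ) ^ 2 := by
    simp only [hd, mul_pow] at hen
    rw [← Finset.mul_sum] at hen
    apply mul_left_cancel₀ (pow_ne_zero 2 hqZ.ne')
    rw [hen]
    ring
  have hcos : ∀ i : ZMod q, 2 ≤ ∑ j ∈ range q,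
      d ((i.val : ZMod (q ^ 2)) + (j : ZMod (q ^ 2)) * (q : ZMod (q ^ 2))) ^ 2 := by
    intro i
    set u : ℕ → ℤ := fun j => U ((i.val : ZMod (q ^ 2)) + (j : ZMod (q ^ 2)) * (q : ZMod (q ^ 2)))
      with hu
    have hstep : ∀ j : ℕ, u j - u (j + 1)
        = q * d ((i.val : ZMod (q ^ 2)) + (j : ZMod (q ^ 2)) * (q : ZMod (q ^ 2))) := by
      intro j
      rw [← hd]
      simp only [hu]
      congr 2
      push_cast
      ring
    refine two_le_sumsq _ _ ?_ ?_
    · apply mul_left_cancel₀ hqZ.ne'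
      rw [Finset.mul_sum]
      simp only [← hstep]
      rw [Finset.sum_range_sub']
      simp [hu, r_mul_r]
    · by_contra hcon
      push Not at hcon
      have a1 : ∀ j, j ≤ q → u j = u 0 := by
        intro j
        induction j with
        | zero => intro _; rfl
        | succ j ih =>
          intro hj
          have := hstep j
          rw [hcon j (by simpa using hj), mul_zero] at this
          rw [← ih (by omega)]
          linarith
      have a2 : ∑ j ∈ range q, u j = 0 := by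
        simp only [hu, hU]
        rw [Finset.sum_comm]
        exact Finset.sum_eq_zero fun x _ => hqs x _
      rw [Finset.sum_congr rfl fun j hj => a1 j (Finset.mem_range.mp hj).le] at a2
      simp only [Finset.sum_const, Finset.card_range, nsmul_eq_mul] at a2
      have a3 : u 0 = 0 := (mul_eq_zero.mp a2).resolve_left hqZ.ne'
      have a4 : ∑ _j ∈ range q, (1 : ℤ) ≤ N i := by
        simp only [hN]
        rw [Finset.sum_comm]
        refine Finset.sum_le_sum fun j hj => odd_pos Finset.univ _ ?_ (fun x => hS.bT _) ?_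
        · simpa using (hp.out.odd_of_ne_two hG.p2).pow
        · have := a1 j (Finset.mem_range.mp hj).le
          rw [a3] at this
          exact this
      rw [hN3] at a4
      simp only [Finset.sum_const, Finset.card_range, nsmul_eq_mul, mul_one] at a4
      have : q ≤ p ^ 2 := by exact_mod_cast a4
      omega
  rw [sum_split] at hd2
  have a5 : ∑ _i : ZMod q, (2 : ℤ) ≤ 2 * (p : ℤ) ^ 2 := hd2 ▸ Finset.sum_le_sum fun i _ => hcos i
  simp only [Finset.sum_const, Finset.card_univ, ZMod.card, nsmul_eq_mul] at a5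
  have : (q : ℤ) ≤ (p : ℤ) ^ 2 := by linarith
  have : q ≤ p ^ 2 := by exact_mod_cast this
  omega

end Pool.Agent.Lib.MP_d3ed34_co
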