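import Pool.Agent.Lib.MP_d3ed34_co.Core2

set_option autoImplicit false
set_option linter.unusedSectionVars false

namespace Pool.Agent.Lib.MP_d3ed34_co

open Finset

variable {R : Type*} [CommRing R] [IsDomain R] [CharZero R]
variable {p q : ℕ} [hp : Fact p.Prime] [hq : Fact q.Prime]
variable {e₁ : AddChar (ZMod (p ^ 2)) R} {e₂ : AddChar (ZMod (q ^ 2)) R}
variable {M T : ZMod (p ^ 2) × ZMod (q ^ 2) → ℤ}

theorem FZ_zero {H : Type*} [CommRing H] [Fintype H] (ψ : AddChar H R) (f : H → ℤ) :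
    FZ ψ f 0 = ((∑ x, f x : ℤ) : R) := by
  unfold FZ FT
  simp

theorem FZ_one {H : Type*} [CommRing H] [Fintype H] [DecidableEq H] {ψ : AddChar H R}
    (hψ : ψ.IsPrimitive) (r : H) :
    FZ ψ (fun _ => 1) r = if r = 0 then (Fintype.card H : R) else 0 := by
  unfold FZ FT
  rw [← orth hψ]
  simp [mul_comm]

theorem FZ_ind (h₁ : e₁.IsPrimitive) (k : ZMod (p ^ 2)) :
    FZ e₁ (fun x => if x * (p : ZMod (p ^ 2)) = 0 then 1 else 0) k
      = if IsUnit k then 0 else (p : R) := by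
  unfold FZ FT
  rw [sum_split, Finset.sum_eq_single 0]
  · have a1 : ∀ j : ℕ, ((j : ZMod (p ^ 2)) * (p : ZMod (p ^ 2))) * (p : ZMod (p ^ 2)) = 0 := by
      intro j
      rw [mul_assoc, r_mul_r, mul_zero]
    have a2 : ∀ j : ℕ, e₁ (k * ((j : ZMod (p ^ 2)) * (p : ZMod (p ^ 2))))
        = e₁ (k * (p : ZMod (p ^ 2))) ^ j := by
      intro j
      rw [chr_pow]
      congr 1
      ring
    simp only [ZMod.val_zero, Nat.cast_zero, zero_add, a1, if_true, Int.cast_one, one_mul, a2]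
    split_ifs with hk
    · have h4 := mul_geom_sum (e₁ (k * (p : ZMod (p ^ 2)))) p
      rw [← a2, r_mul_r, mul_zero, AddChar.map_zero_eq_one, sub_self] at h4
      exact (mul_eq_zero.mp h4).resolve_left (sub_ne_zero.mpr ((chr_ne_one_iff h₁ k).mpr hk))
    · rw [unit_iff, not_not] at hk
      simp [hk]
  · intro i _ hi
    refine Finset.sum_eq_zero fun j _ => ?_
    beta_reduce
    rw [if_neg]
    · simp
    · intro h
      have : ((i.val : ℕ) : ZMod (p ^ 2)) * (p : ZMod (p ^ 2)) = 0 := by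
        have := r_mul_r (r := p)
        linear_combination h - (j : ZMod (p ^ 2)) * this
      rw [nat_mul_eq_zero_iff] at this
      exact hi ((ZMod.val_eq_zero i).mp (Nat.eq_zero_of_dvd_of_lt this (ZMod.val_lt i)))
  · simp

/-- Indicator of the subgroup of order `p q`. -/
def indN (p q : ℕ) (c : ZMod (p ^ 2) × ZMod (q ^ 2)) : ℤ :=
  (if c.1 * (p : ZMod (p ^ 2)) = 0 then 1 else 0) * (if c.2 * (q : ZMod (q ^ 2)) = 0 then 1 else 0)

theorem FZ_indN (hG : Good e₁ e₂) (k : ZMod (p ^ 2)) (l : ZMod (q ^ 2)) :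
    FZ (pc e₁ e₂) (indN p q) (k, l)
      = (if IsUnit k then 0 else (p : R)) * (if IsUnit l then 0 else (q : R)) := by
  rw [FZ_pc, ← FZ_ind hG.h₁, ← FZ_ind hG.h₂]
  have : ∀ x : ZMod (p ^ 2), FZ e₂ (fun y => indN p q (x, y)) l
      = ((if x * (p : ZMod (p ^ 2)) = 0 then 1 else 0 : ℤ) : R)
        * FZ e₂ (fun y => if y * (q : ZMod (q ^ 2)) = 0 then 1 else 0) l := by
    intro x
    rw [← FZ_mul]
    rfl
  simp only [this]
  generalize FZ e₂ (fun y => if y * (q : ZMod (q ^ 2)) = 0 then 1 else 0) l = a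
  unfold FZ FT
  rw [Finset.sum_mul]
  exact Finset.sum_congr rfl fun x _ => by ring

theorem lam_expand {Z : ZMod (p ^ 2) → ℤ} {c : ℤ}
    (hZ : ∀ x, ∑ j ∈ range p, Z (x + (j : ZMod (p ^ 2)) * (p : ZMod (p ^ 2))) = c)
    (k : ZMod (p ^ 2)) :
    ∃ s, (e₁ k - 1) * FZ e₁ Z k = (e₁ k ^ p - 1) * (c + (e₁ k - 1) * s) := by
  have h1 : (e₁ k ^ p - 1) ∣ FZ e₁ Z k - c * ∑ i ∈ range p, e₁ k ^ i := by
    unfold FZ FT
    rw [sum_split, ← sum_zmod_range (fun i => e₁ k ^ i), Finset.mul_sum, ← Finset.sum_sub_distrib]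
    refine Finset.dvd_sum fun i _ => ?_
    rw [← hZ (i.val : ZMod (p ^ 2))]
    push_cast
    rw [Finset.sum_mul, ← Finset.sum_sub_distrib]
    refine Finset.dvd_sum fun j _ => ?_
    have : e₁ (k * ((i.val : ZMod (p ^ 2)) + (j : ZMod (p ^ 2)) * (p : ZMod (p ^ 2))))
        = e₁ k ^ i.val * (e₁ k ^ p) ^ j := by
      rw [chr_pow, chr_pow, chr_pow, ← AddChar.map_add_eq_mul]
      congr 1
      ring
    rw [this, ← mul_sub, ← mul_sub_one]
    have := sub_dvd_pow_sub_pow (e₁ k ^ p) 1 j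
    rw [one_pow] at this
    exact (this.mul_left _).mul_left _
  obtain ⟨s, hs⟩ := h1
  refine ⟨s, ?_⟩
  have := mul_geom_sum (e₁ k) p
  linear_combination (e₁ k - 1) * hs + (c : R) * this

theorem card_odd (hG : Good e₁ e₂) :
    Odd (Finset.univ : Finset (ZMod (p ^ 2) × ZMod (q ^ 2))).card := by
  simpa using ((hp.out.odd_of_ne_two hG.p2).pow (n := 2)).mul
    ((hq.out.odd_of_ne_two hG.q2).pow (n := 2))

theorem abs_mul_le {a b : ℤ} (ha : |a| ≤ 1) (hb : |b| ≤ 1) : |a * b| ≤ 1 := by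
  rw [abs_mul]
  exact mul_le_one₀ ha (abs_nonneg _) hb

theorem case_triv (hG : Good e₁ e₂) (hS : Sys e₁ e₂ M T) (h11 : FZ (pc e₁ e₂) M (1, 1) = 0)
    (h10 : FZ (pc e₁ e₂) M (1, 0) = 0) (h01 : FZ (pc e₁ e₂) M (0, 1) = 0)
    (h00 : FZ (pc e₁ e₂) M (0, 0) ≠ 0) : False := by
  have hψ := pc_prim hG.h₁ hG.h₂
  have hRM : ∀ c, ∑ g, M (c + g) * M g = p * q * indN p q c := by
    refine FZ_ext hψ ?_
    rintro ⟨k, l⟩
    rw [FZ_corr, FZ_mul, FZ_indN hG]
    by_cases hl : IsUnit l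
    · rw [pair_z hG hS h11 h01 k hl]
      simp [hl]
    · by_cases hk : IsUnit k
      · rw [(cls_non' hG hS k hl).mpr ((cls_unit hG hk 0).mpr h10)]
        simp [hk]
      · rw [hS.norm (by rw [Ne, cls_non' hG hS k hl, cls_non hG hS hk]; exact h00)]
        simp only [hk, hl, if_false]
        push_cast
        ring
  set Z : ZMod (p ^ 2) × ZMod (q ^ 2) → ℤ := fun g => 1 - T g ^ 2 with hZ
  have hZ0 : ∀ g, 0 ≤ Z g := fun g => one_sub_sq_nonneg (hS.bT g)
  have hZ1 : ∀ g, Z g * Z g = Z g := by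
    intro g
    have b1 := abs_le.mp (hS.bT g)
    have b3 : T g = -1 ∨ T g = 0 ∨ T g = 1 := by omega
    simp only [hZ]
    rcases b3 with h | h | h <;> rw [h] <;> norm_num
  have hind0 : indN p q 0 = 1 := by simp [indN]
  have hZs : ∑ g, Z g = p * q := by
    have := hRM 0
    simp only [zero_add, hind0, mul_one] at this
    rw [hZ, zeros_eq hS, ← this]
    simp [sq]
  have hZs' : ∀ c, ∑ g, Z (c + g) = p * q := by
    intro c
    rw [← hZs]
    exact Equiv.sum_comp (Equiv.addLeft c) Z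
  have hind : ∀ c, indN p q c = 0 ∨ indN p q c = 1 := by
    intro c
    unfold indN
    split_ifs <;> simp
  have hE : ∀ c, 0 ≤ ∑ g, Z (c + g) * Z g
      - ((if c = 0 then (p : ℤ) * q else 0) + (1 - indN p q c)) := by
    intro c
    have hnn : 0 ≤ ∑ g, Z (c + g) * Z g := Finset.sum_nonneg fun g _ => mul_nonneg (hZ0 _) (hZ0 _)
    by_cases hc : c = 0
    · subst hc
      simp only [zero_add, hZ1, hZs, hind0, if_true]
      simp
    · rw [if_neg hc]
      rcases hind c with h | h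
      · have a1 := hS.corr c
        rw [hRM, h, if_neg hc, mul_zero, zero_add] at a1
        have a2 := odd_sum Finset.univ (fun g => T (c + g) * T g) (card_odd hG) a1
        have a3 : ∑ g, (1 - (T (c + g) * T g) ^ 2)
            = ∑ g, Z (c + g) + ∑ g, Z g - ∑ g, Z (c + g) * Z g := by
          rw [← Finset.sum_add_distrib, ← Finset.sum_sub_distrib]
          exact Finset.sum_congr rfl fun g _ => by simp only [hZ]; ring
        rw [a3, hZs, hZs'] at a2
        obtain ⟨n, hn⟩ := a2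
        rw [h]
        omega
      · rw [h]
        simpa using hnn
  have hsumind : ∑ c, indN p q c = p * q := by
    have := FZ_indN hG 0 0
    rw [show ((0 : ZMod (p ^ 2)), (0 : ZMod (q ^ 2))) = 0 from rfl, FZ_zero] at this
    have h1 : ¬ IsUnit (0 : ZMod (p ^ 2)) := by rw [unit_iff]; simp
    have h2 : ¬ IsUnit (0 : ZMod (q ^ 2)) := by rw [unit_iff]; simp
    rw [if_neg h1, if_neg h2] at this
    exact_mod_cast this
  have hRZ : ∀ c, ∑ g, Z (c + g) * Z g
      = (if c = 0 then (p : ℤ) * q else 0) + (1 - indN p q c) := by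
    have a1 : ∑ c, (∑ g, Z (c + g) * Z g
        - ((if c = 0 then (p : ℤ) * q else 0) + (1 - indN p q c))) = 0 := by
      rw [Finset.sum_sub_distrib, Finset.sum_comm, Finset.sum_add_distrib, Finset.sum_sub_distrib,
        hsumind]
      have : ∀ g, ∑ c, Z (c + g) * Z g = p * q * Z g := by
        intro g
        rw [← Finset.sum_mul, ← hZs]
        congr 1
        exact Equiv.sum_comp (Equiv.addRight g) Z
      simp only [this]
      rw [← Finset.mul_sum, hZs]
      simp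
      ring
    intro c
    have := (Finset.sum_eq_zero_iff_of_nonneg (fun c _ => hE c)).mp a1 c (Finset.mem_univ c)
    linarith
  have hZN : ∀ k, k ≠ 0 → FZ (pc e₁ e₂) Z (k, 0) * FZ (pc e₁ e₂) Z (-k, 0)
      = p * q - (if IsUnit k then 0 else (p : R)) * q := by
    intro k hk
    have a1 := FZ_corr (pc e₁ e₂) Z Z (k, 0)
    have h2 : ¬ IsUnit (0 : ZMod (q ^ 2)) := by rw [unit_iff]; simp
    simp only [hRZ] at a1
    rw [FZ_add, FZ_sub, FZ_delta, FZ_one hψ, FZ_indN hG, if_neg h2,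
      if_neg (fun h => hk (congrArg Prod.fst h)), Prod.neg_mk, neg_zero] at a1
    rw [← a1, mul_zero, AddChar.map_zero_eq_one]
    push_cast
    ring
  set U : ZMod (p ^ 2) → ℤ := fun x => ∑ y, Z (x, y) with hU
  have hUZ : ∀ k, FZ e₁ U k = FZ (pc e₁ e₂) Z (k, 0) := fun k => (FZ_pc_zero_right e₁ e₂ Z k).symm
  have hpZ : (p : ℤ) ≠ 0 := by exact_mod_cast hp.out.ne_zero
  have hUs : ∀ x, ∑ j ∈ range p, U (x + (j : ZMod (p ^ 2)) * (p : ZMod (p ^ 2))) = q := by
    intro x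
    have a1 := psum_zero hG.h₁ (f := fun x => p * U x - q * 1) (z := (p : ZMod (p ^ 2))) (p := p)
      r_mul_r (by
        intro k hr
        have hk : ¬ IsUnit k := fun hk => (chr_ne_one_iff hG.h₁ k).mpr hk hr
        rw [FZ_sub, FZ_mul, FZ_mul, FZ_one hG.h₁, hUZ]
        by_cases hk0 : k = 0
        · subst hk0
          rw [show ((0 : ZMod (p ^ 2)), (0 : ZMod (q ^ 2))) = 0 from rfl, FZ_zero, hZs]
          simp
          ring
        · have b1 := hZN k hk0
          rw [if_neg hk, sub_self] at b1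
          have b2 : FZ (pc e₁ e₂) Z (k, 0) = 0 := by
            rcases mul_eq_zero.mp b1 with h | h
            · exact h
            · simpa using hG.gal_zero isUnit_one.neg isUnit_one h
          rw [b2, if_neg hk0]
          simp) x
    rw [Finset.sum_sub_distrib, ← Finset.mul_sum] at a1
    simp only [mul_one, Finset.sum_const, Finset.card_range, nsmul_eq_mul] at a1
    apply mul_left_cancel₀ hpZ
    linarith
  obtain ⟨s, hs⟩ := lam_expand (e₁ := e₁) hUs 1
  obtain ⟨s', hs'⟩ := lam_expand (e₁ := e₁) hUs (-1)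
  have h1ne : (1 : ZMod (p ^ 2)) ≠ 0 := by
    intro h
    have := r_ne_zero (r := p)
    rw [← one_mul (p : ZMod (p ^ 2)), h, zero_mul] at this
    exact this rfl
  have hN := hZN 1 h1ne
  rw [if_pos isUnit_one, zero_mul, sub_zero, ← hUZ, ← hUZ] at hN
  have hww := chr_mul_neg e₁ 1
  have hw : IsPrimitiveRoot (e₁ 1) (p ^ 2) := chr_prim hG.h₁ isUnit_one
  set w := e₁ 1
  set w' := e₁ (-1)
  have hwp : IsPrimitiveRoot (w ^ p) (p ^ (0 + 1)) := by
    rw [zero_add, pow_one]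
    exact hw.pow (pow_pos hp.out.pos 2) (sq p)
  have hπ : w ^ p - 1 ≠ 0 := sub_ne_zero.mpr (hwp.ne_one (by simpa using hp.out.one_lt))
  have hdiv : (w ^ p - 1) ^ 2 ∣ (p : R) := by
    refine (pow_dvd_pow _ ?_).trans (lam_pow_dvd hwp)
    rw [zero_add, pow_one, Nat.totient_prime hp.out]
    have := hp.out.two_le
    have := hG.p2
    omega
  obtain ⟨t, ht⟩ := hdiv
  have hwwp : w ^ p * w' ^ p = 1 := by rw [← mul_pow, hww, one_pow]
  have key : (w ^ p - 1) ^ 2 * ((w - 1) * ((w' - 1) * t * q))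
      = (w ^ p - 1) ^ 2 * (-(w' ^ p) * ((((q : ℤ) : R) + (w - 1) * s)
        * (((q : ℤ) : R) + (w' - 1) * s'))) := by
    have b1 : w' ^ p - 1 = -(w' ^ p) * (w ^ p - 1) := by linear_combination hwwp
    rw [b1] at hs'
    have b2 : ((w - 1) * FZ e₁ U 1) * ((w' - 1) * FZ e₁ U (-1))
        = (w - 1) * (w' - 1) * (p * q) := by rw [← hN]; ring
    rw [hs, hs', ht] at b2
    linear_combination -b2
  have key2 := mul_left_cancel₀ (pow_ne_zero 2 hπ) key
  have hd : (w - 1) ∣ (((q : ℤ) ^ 2 : ℤ) : R) := by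
    refine ⟨-(w ^ p) * ((w' - 1) * t * q) - s * q + w' * s' * (q + (w - 1) * s), ?_⟩
    have b1 : w' - 1 = -w' * (w - 1) := by linear_combination hww
    push_cast at key2 ⊢
    linear_combination (w ^ p) * key2 - ((q + (w - 1) * s) * (q + (w' - 1) * s')) * hwwp
      - (s' * (q + (w - 1) * s)) * b1
  exact not_dvd_sq hG.pq (lam_dvd hG.nu₁ hG.p2 hw.pow_eq_one hd)

theorem case_none (hG : Good e₁ e₂) (hS : Sys e₁ e₂ M T) (h11 : FZ (pc e₁ e₂) M (1, 1) = 0)
    (h10 : FZ (pc e₁ e₂) M (1, 0) = 0) (h01 : FZ (pc e₁ e₂) M (0, 1) = 0)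
    (h00 : FZ (pc e₁ e₂) M (0, 0) = 0) : False := by
  have hψ := pc_prim hG.h₁ hG.h₂
  have hM : ∀ g, M g = 0 := by
    refine FZ_eq_zero hψ ?_
    rintro ⟨k, l⟩
    by_cases hl : IsUnit l
    · exact pair_z hG hS h11 h01 k hl
    · rw [cls_non' hG hS k hl]
      by_cases hk : IsUnit k
      · rw [cls_unit hG hk]; exact h10
      · rw [cls_non hG hS hk]; exact h00
  have hZ := zeros_eq hS
  simp only [hM, ne_eq, OfNat.ofNat_ne_zero, not_false_eq_true, zero_pow,
    Finset.sum_const_zero] at hZ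
  have hT : ∀ g, T g ^ 2 = 1 := by
    intro g
    have := (Finset.sum_eq_zero_iff_of_nonneg (fun g _ => one_sub_sq_nonneg (hS.bT g))).mp hZ g
      (Finset.mem_univ g)
    linarith
  have hz : ((p : ZMod (p ^ 2)), (0 : ZMod (q ^ 2))) ≠ 0 := fun h => r_ne_zero (congrArg Prod.fst h)
  have a1 := hS.corr ((p : ZMod (p ^ 2)), (0 : ZMod (q ^ 2)))
  simp only [hM, mul_zero, Finset.sum_const_zero, zero_add, if_neg hz] at a1
  have a2 := odd_sum Finset.univ _ (card_odd hG) a1
  simp only [mul_pow, hT, mul_one, sub_self, Finset.sum_const_zero] at a2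
  exact absurd a2 (by decide)

theorem core_aux (hG : Good e₁ e₂) (hS : Sys e₁ e₂ M T) (h11 : FZ (pc e₁ e₂) M (1, 1) = 0) :
    False := by
  by_cases h10 : FZ (pc e₁ e₂) M (1, 0) = 0 <;> by_cases h01 : FZ (pc e₁ e₂) M (0, 1) = 0 <;>
    by_cases h00 : FZ (pc e₁ e₂) M (0, 0) = 0
  · exact case_none hG hS h11 h10 h01 h00
  · exact case_triv hG hS h11 h10 h01 h00
  · exact case_only hG.swap hS.swap (by rw [FZ_swap]; exact h11) (by rw [FZ_swap]; exact h01)
      (by rw [FZ_swap]; exact h10) (by rw [FZ_swap]; exact h00)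
  · exact case_pair hG.swap hS.swap (by rw [FZ_swap]; exact h11) (by rw [FZ_swap]; exact h01)
      (by rw [FZ_swap]; exact h10) (by rw [FZ_swap]; exact h00)
  · exact case_only hG hS h11 h10 h01 h00
  · exact case_pair hG hS h11 h10 h01 h00
  · exact case_both hG hS h11 h10 h01
  · exact case_both hG hS h11 h10 h01

theorem core (hG : Good e₁ e₂) (hS : Sys e₁ e₂ M T) : False := by
  by_cases h11 : FZ (pc e₁ e₂) M (1, 1) = 0
  · exact core_aux hG hS h11
  · exact core_aux hG hS.symm (hS.other h11)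

end Pool.Agent.Lib.MP_d3ed34_co
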