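import Mathlib

set_option autoImplicit false

namespace Pool.Agent.Lib.MP_d3ed34_co

open Finset

variable {H : Type*} [CommRing H] [Fintype H] [DecidableEq H]
variable {R : Type*} [CommRing R] [IsDomain R] [CharZero R]

/-- Discrete Fourier transform on a finite commutative ring. -/
def FT (ψ : AddChar H R) (f : H → R) (r : H) : R := ∑ x, f x * ψ (r * x)

/-- Fourier transform of an integer valued function. -/
def FZ (ψ : AddChar H R) (f : H → ℤ) (r : H) : R := FT ψ (fun x => (f x : R)) r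

omit [Fintype H] [DecidableEq H] [IsDomain R] [CharZero R] in
theorem chr_mul_neg (ψ : AddChar H R) (a : H) : ψ a * ψ (-a) = 1 := by
  rw [← AddChar.map_add_eq_mul, add_neg_cancel, AddChar.map_zero_eq_one]

omit [CharZero R] in
theorem orth {ψ : AddChar H R} (hψ : ψ.IsPrimitive) (b : H) :
    ∑ r, ψ (r * b) = if b = 0 then (Fintype.card H : R) else 0 := by
  have := AddChar.sum_mulShift b hψ
  rw [this]
  split_ifs <;> simp

omit [IsDomain R] in
theorem card_ne_zero' : (Fintype.card H : R) ≠ 0 := by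
  exact_mod_cast Fintype.card_ne_zero

omit [CharZero R] in
theorem FT_inv {ψ : AddChar H R} (hψ : ψ.IsPrimitive) (f : H → R) (x : H) :
    ∑ r, FT ψ f r * ψ (-(r * x)) = (Fintype.card H : R) * f x := by
  unfold FT
  simp_rw [Finset.sum_mul]
  rw [Finset.sum_comm]
  have : ∀ y, ∑ r, f y * ψ (r * y) * ψ (-(r * x)) =
      f y * (if y - x = 0 then (Fintype.card H : R) else 0) := by
    intro y
    rw [← orth hψ, Finset.mul_sum]
    refine Finset.sum_congr rfl fun r _ => ?_
    rw [mul_assoc, ← AddChar.map_add_eq_mul]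
    congr 2
    ring
  simp_rw [this, sub_eq_zero]
  simp [mul_comm]

theorem FT_eq_zero {ψ : AddChar H R} (hψ : ψ.IsPrimitive) {f : H → R} (h : ∀ r, FT ψ f r = 0)
    (x : H) : f x = 0 := by
  have := FT_inv hψ f x
  simp only [h, zero_mul, Finset.sum_const_zero] at this
  exact (mul_eq_zero.mp this.symm).resolve_left card_ne_zero'

omit [DecidableEq H] [IsDomain R] [CharZero R] in
theorem FT_sub (ψ : AddChar H R) (f g : H → R) (r : H) :
    FT ψ (fun x => f x - g x) r = FT ψ f r - FT ψ g r := by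
  unfold FT
  rw [← Finset.sum_sub_distrib]
  exact Finset.sum_congr rfl fun x _ => by ring

omit [DecidableEq H] [IsDomain R] [CharZero R] in
theorem FT_add (ψ : AddChar H R) (f g : H → R) (r : H) :
    FT ψ (fun x => f x + g x) r = FT ψ f r + FT ψ g r := by
  unfold FT
  rw [← Finset.sum_add_distrib]
  exact Finset.sum_congr rfl fun x _ => by ring

omit [DecidableEq H] [IsDomain R] [CharZero R] in
theorem FT_mul (ψ : AddChar H R) (a : R) (f : H → R) (r : H) :
    FT ψ (fun x => a * f x) r = a * FT ψ f r := by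
  unfold FT
  rw [Finset.mul_sum]
  exact Finset.sum_congr rfl fun x _ => by ring

theorem FT_ext {ψ : AddChar H R} (hψ : ψ.IsPrimitive) {f g : H → R}
    (h : ∀ r, FT ψ f r = FT ψ g r) (x : H) : f x = g x := by
  have := FT_eq_zero hψ (f := fun x => f x - g x) (fun r => by rw [FT_sub, h, sub_self]) x
  exact sub_eq_zero.mp this

omit [DecidableEq H] [IsDomain R] [CharZero R] in
theorem FT_shift (ψ : AddChar H R) (f : H → R) (z r : H) :
    FT ψ (fun x => f (x + z)) r = ψ (-(r * z)) * FT ψ f r := by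
  unfold FT
  rw [Finset.mul_sum, ← Equiv.sum_comp (Equiv.addRight z) (fun x => ψ (-(r * z)) * (f x * ψ (r * x)))]
  refine Finset.sum_congr rfl fun x _ => ?_
  simp only [Equiv.coe_addRight]
  rw [mul_left_comm, ← AddChar.map_add_eq_mul]
  congr 2
  ring

omit [DecidableEq H] [IsDomain R] [CharZero R] in
theorem FT_corr (ψ : AddChar H R) (f g : H → R) (r : H) :
    FT ψ (fun c => ∑ x, f (c + x) * g x) r = FT ψ f r * FT ψ g (-r) := by
  have h1 : FT ψ (fun c => ∑ x, f (c + x) * g x) r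
      = ∑ x, g x * FT ψ (fun c => f (c + x)) r := by
    unfold FT
    simp_rw [Finset.sum_mul, Finset.mul_sum]
    rw [Finset.sum_comm]
    exact Finset.sum_congr rfl fun x _ => Finset.sum_congr rfl fun c _ => by ring
  rw [h1]
  simp_rw [FT_shift]
  conv_rhs => unfold FT
  rw [Finset.mul_sum]
  refine Finset.sum_congr rfl fun x _ => ?_
  unfold FT
  rw [neg_mul]
  ring

omit [IsDomain R] [CharZero R] in
theorem FT_delta (ψ : AddChar H R) (g : H) (a : R) (r : H) :
    FT ψ (fun x => if x = g then a else 0) r = a * ψ (r * g) := by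
  unfold FT
  simp [ite_mul]

omit [CharZero R] in
theorem parseval {ψ : AddChar H R} (hψ : ψ.IsPrimitive) (f g : H → R) :
    ∑ r, FT ψ f r * FT ψ g (-r) = (Fintype.card H : R) * ∑ x, f x * g x := by
  have := FT_inv hψ (fun c => ∑ x, f (c + x) * g x) 0
  simpa [FT_corr] using this

omit [DecidableEq H] [IsDomain R] [CharZero R] in
theorem FZ_sub (ψ : AddChar H R) (f g : H → ℤ) (r : H) :
    FZ ψ (fun x => f x - g x) r = FZ ψ f r - FZ ψ g r := by
  unfold FZ
  rw [← FT_sub]
  simp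

omit [DecidableEq H] [IsDomain R] [CharZero R] in
theorem FZ_add (ψ : AddChar H R) (f g : H → ℤ) (r : H) :
    FZ ψ (fun x => f x + g x) r = FZ ψ f r + FZ ψ g r := by
  unfold FZ
  rw [← FT_add]
  simp

omit [DecidableEq H] [IsDomain R] [CharZero R] in
theorem FZ_mul (ψ : AddChar H R) (a : ℤ) (f : H → ℤ) (r : H) :
    FZ ψ (fun x => a * f x) r = a * FZ ψ f r := by
  unfold FZ
  rw [← FT_mul]
  simp

omit [DecidableEq H] [IsDomain R] [CharZero R] in
theorem FZ_shift (ψ : AddChar H R) (f : H → ℤ) (z r : H) :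
    FZ ψ (fun x => f (x + z)) r = ψ (-(r * z)) * FZ ψ f r :=
  FT_shift ψ (fun x => (f x : R)) z r

omit [DecidableEq H] [IsDomain R] [CharZero R] in
theorem FZ_corr (ψ : AddChar H R) (f g : H → ℤ) (r : H) :
    FZ ψ (fun c => ∑ x, f (c + x) * g x) r = FZ ψ f r * FZ ψ g (-r) := by
  unfold FZ
  rw [← FT_corr]
  simp

omit [IsDomain R] [CharZero R] in
theorem FZ_delta (ψ : AddChar H R) (g : H) (a : ℤ) (r : H) :
    FZ ψ (fun x => if x = g then a else 0) r = a * ψ (r * g) := by
  unfold FZ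
  rw [← FT_delta]
  simp

theorem FZ_ext {ψ : AddChar H R} (hψ : ψ.IsPrimitive) {f g : H → ℤ}
    (h : ∀ r, FZ ψ f r = FZ ψ g r) (x : H) : f x = g x := by
  have := FT_ext hψ h x
  exact_mod_cast this

theorem FZ_eq_zero {ψ : AddChar H R} (hψ : ψ.IsPrimitive) {f : H → ℤ}
    (h : ∀ r, FZ ψ f r = 0) (x : H) : f x = 0 := by
  have := FT_eq_zero hψ h x
  exact_mod_cast this

omit [CharZero R] in
theorem parsevalZ {ψ : AddChar H R} (hψ : ψ.IsPrimitive) (f : H → ℤ) :
    ∑ r, FZ ψ f r * FZ ψ f (-r) = (Fintype.card H : R) * ((∑ x, f x ^ 2 : ℤ) : R) := by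
  unfold FZ
  rw [parseval hψ]
  simp [sq]

/-- If all Fourier coefficients have the same norm `c` then the sum of squares is `c`. -/
theorem sumsq_of_const {ψ : AddChar H R} (hψ : ψ.IsPrimitive) {f : H → ℤ} {c : ℤ}
    (h : ∀ r, FZ ψ f r * FZ ψ f (-r) = c) : ∑ x, f x ^ 2 = c := by
  have := parsevalZ hψ f
  simp only [h, Finset.sum_const, Finset.card_univ, nsmul_eq_mul] at this
  have := mul_left_cancel₀ card_ne_zero' this
  exact_mod_cast this.symm

omit [DecidableEq H] [IsDomain R] [CharZero R] in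
theorem FZ_diff (ψ : AddChar H R) (f : H → ℤ) (z r : H) :
    FZ ψ (fun x => f x - f (x + z)) r = (1 - ψ (-(r * z))) * FZ ψ f r := by
  rw [FZ_sub, FZ_shift]
  ring

omit [Fintype H] [DecidableEq H] [IsDomain R] [CharZero R] in
theorem chr_neg_eq_one {ψ : AddChar H R} {a : H} (h : ψ a = 1) : ψ (-a) = 1 := by
  have := chr_mul_neg ψ a
  rwa [h, one_mul] at this

omit [Fintype H] [DecidableEq H] [IsDomain R] [CharZero R] in
theorem chr_neg_ne_one {ψ : AddChar H R} {a : H} (h : ψ a ≠ 1) : ψ (-a) ≠ 1 := by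
  intro h'
  exact h (by simpa using chr_neg_eq_one h')

/-- Periodicity from vanishing of Fourier coefficients. -/
theorem periodic_FT {ψ : AddChar H R} (hψ : ψ.IsPrimitive) {f : H → R} {z : H}
    (h : ∀ r, ψ (r * z) ≠ 1 → FT ψ f r = 0) (x : H) : f (x + z) = f x := by
  refine FT_ext hψ (f := fun x => f (x + z)) (g := f) (fun r => ?_) x
  rw [FT_shift]
  by_cases hr : ψ (r * z) = 1
  · rw [chr_neg_eq_one hr, one_mul]
  · rw [h r hr, mul_zero]

theorem periodic_FZ {ψ : AddChar H R} (hψ : ψ.IsPrimitive) {f : H → ℤ} {z : H}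
    (h : ∀ r, ψ (r * z) ≠ 1 → FZ ψ f r = 0) (x : H) : f (x + z) = f x := by
  have := periodic_FT hψ h x
  exact_mod_cast this

/-- Energy identity. -/
theorem energy {ψ : AddChar H R} (hψ : ψ.IsPrimitive) {f : H → ℤ} {z : H} (hz : z ≠ 0) {c : ℤ}
    (h : ∀ r, ψ (r * z) ≠ 1 → FZ ψ f r * FZ ψ f (-r) = c) :
    ∑ x, (f x - f (x + z)) ^ 2 = 2 * c := by
  have h1 := parsevalZ hψ (fun x => f x - f (x + z))
  have h2 : ∀ r, FZ ψ (fun x => f x - f (x + z)) r * FZ ψ (fun x => f x - f (x + z)) (-r)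
      = (c : R) * (2 - ψ (r * z) - ψ (r * (-z))) := by
    intro r
    rw [FZ_diff, FZ_diff]
    have e1 : -(-r * z) = r * z := by ring
    have e2 : r * (-z) = -(r * z) := by ring
    rw [e1, e2]
    by_cases hr : ψ (r * z) = 1
    · rw [chr_neg_eq_one hr, hr]
      ring
    · have h3 := h r hr
      have h4 := chr_mul_neg ψ (r * z)
      linear_combination (1 - ψ (-(r * z))) * (1 - ψ (r * z)) * h3 + (c : R) * h4
  simp_rw [h2] at h1
  rw [← Finset.mul_sum, Finset.sum_sub_distrib, Finset.sum_sub_distrib, orth hψ, orth hψ] at h1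
  simp only [hz, neg_eq_zero, if_false, Finset.sum_const, Finset.card_univ, nsmul_eq_mul,
    sub_zero] at h1
  have h5 : (Fintype.card H : R) * ((2 * c : ℤ) : R)
      = (Fintype.card H : R) * ((∑ x, (f x - f (x + z)) ^ 2 : ℤ) : R) := by
    rw [← h1]
    push_cast
    ring
  have := mul_left_cancel₀ card_ne_zero' h5
  exact_mod_cast this.symm

/-- Sums along a cyclic subgroup vanish. -/
theorem psum_zero {ψ : AddChar H R} (hψ : ψ.IsPrimitive) {f : H → ℤ} {z : H} {p : ℕ}
    (hz : (p : H) * z = 0) (h : ∀ r, ψ (r * z) = 1 → FZ ψ f r = 0) (x : H) :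
    ∑ j ∈ range p, f (x + j * z) = 0 := by
  refine FZ_eq_zero hψ (f := fun x => ∑ j ∈ range p, f (x + j * z)) (fun r => ?_) x
  have h1 : FZ ψ (fun x => ∑ j ∈ range p, f (x + j * z)) r
      = ∑ j ∈ range p, FZ ψ (fun x => f (x + j * z)) r := by
    unfold FZ FT
    push_cast
    simp_rw [Finset.sum_mul]
    rw [Finset.sum_comm]
  rw [h1]
  simp_rw [FZ_shift]
  rw [← Finset.sum_mul]
  by_cases hr : ψ (r * z) = 1
  · rw [h r hr, mul_zero]
  · have h2 : ∀ j : ℕ, ψ (-(r * (j * z))) = ψ (-(r * z)) ^ j := by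
      intro j
      rw [← AddChar.map_nsmul_eq_pow]
      congr 1
      rw [nsmul_eq_mul]
      ring
    simp_rw [h2]
    have h3 : ψ (-(r * z)) ^ p = 1 := by
      rw [← h2, hz]
      simp
    have h4 := mul_geom_sum (ψ (-(r * z))) p
    rw [h3, sub_self] at h4
    rw [(mul_eq_zero.mp h4).resolve_left (sub_ne_zero.mpr (chr_neg_ne_one hr)), zero_mul]

omit [CommRing H] in
/-- An integer function with sum of squares two is a signed sum of two point masses. -/
theorem two_points {d : H → ℤ} (h : ∑ x, d x ^ 2 = 2) :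
    ∃ g g' : H, g ≠ g' ∧ d g ^ 2 = 1 ∧ d g' ^ 2 = 1 ∧ ∀ x, x ≠ g → x ≠ g' → d x = 0 := by
  have hnn : ∀ x, 0 ≤ d x ^ 2 := fun x => sq_nonneg _
  obtain ⟨g, hg⟩ : ∃ g, d g ≠ 0 := by
    by_contra hc
    push Not at hc
    simp [hc] at h
  have h1 : d g ^ 2 ≤ 2 := h ▸ Finset.single_le_sum (fun x _ => hnn x) (Finset.mem_univ g)
  have h2 : d g ^ 2 = 1 := by
    have : -2 < d g := by nlinarith
    have : d g < 2 := by nlinarith
    interval_cases (d g) <;> simp_all
  rw [← Finset.add_sum_erase _ _ (Finset.mem_univ g), h2] at h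
  have h3 : ∑ x ∈ univ.erase g, d x ^ 2 = 1 := by linarith
  obtain ⟨g', hg', hg2⟩ : ∃ g' ∈ univ.erase g, d g' ≠ 0 := by
    by_contra hc
    push Not at hc
    rw [Finset.sum_eq_zero (fun x hx => by rw [hc x hx]; ring)] at h3
    exact zero_ne_one h3
  have h4 : 1 ≤ d g' ^ 2 := by
    have := sq_pos_of_ne_zero hg2
    omega
  rw [← Finset.add_sum_erase _ _ hg'] at h3
  have h5 : 0 ≤ ∑ x ∈ (univ.erase g).erase g', d x ^ 2 := Finset.sum_nonneg fun x _ => hnn x
  have h6 : ∑ x ∈ (univ.erase g).erase g', d x ^ 2 = 0 := by linarith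
  refine ⟨g, g', (Finset.ne_of_mem_erase hg').symm, h2, by linarith, fun x hx hx' => ?_⟩
  have := (Finset.sum_eq_zero_iff_of_nonneg (fun x _ => hnn x)).mp h6 x (by simp [hx, hx'])
  exact pow_eq_zero_iff (two_ne_zero) |>.mp this

/-- A combinatorial substitute for Kronecker's theorem. -/
theorem kron {ψ : AddChar H R} (hψ : ψ.IsPrimitive) {f : H → ℤ} {z : H} (hz : z ≠ 0) {c : ℤ}
    (hc : c ≠ 0) (h : ∀ r, ψ (r * z) ≠ 1 → FZ ψ f r * FZ ψ f (-r) = (c ^ 2 : ℤ))
    (hd : ∀ x, c ∣ f x - f (x + z)) :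
    ∃ (g : H) (s : ℤ), (s = 1 ∨ s = -1) ∧
      (∀ x, f x - f (x + z) = c * s * ((if x = g then 1 else 0) - (if x + z = g then 1 else 0))) ∧
      ∀ r, ψ (r * z) ≠ 1 → FZ ψ f r = (s * c : ℤ) * ψ (r * g) := by
  have hcR : (c : R) ≠ 0 := by exact_mod_cast hc
  choose d hd using hd
  have he := energy hψ hz h
  simp_rw [hd, mul_pow] at he
  rw [← Finset.mul_sum, mul_comm] at he
  have he2 : ∑ x, d x ^ 2 = 2 := mul_right_cancel₀ (pow_ne_zero 2 hc) he
  obtain ⟨g, g', hne, hg, hg', hz0⟩ := two_points he2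
  have hform : ∀ x, d x = (if x = g then d g else 0) + (if x = g' then d g' else 0) := by
    intro x
    by_cases h1 : x = g
    · subst h1
      simp [hne]
    · by_cases h2 : x = g'
      · subst h2
        simp [h1]
      · simp [h1, h2, hz0 x h1 h2]
  have hF : ∀ r, (1 - ψ (-(r * z))) * FZ ψ f r
      = c * ((d g : R) * ψ (r * g) + (d g' : R) * ψ (r * g')) := by
    intro r
    rw [← FZ_diff, ← FZ_delta, ← FZ_delta, ← FZ_add, ← FZ_mul]
    congr 1
    funext x
    rw [hd, hform x]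
  have hs : d g' = -d g := by
    have := hF 0
    simp only [zero_mul, neg_zero, AddChar.map_zero_eq_one, sub_self, mul_one] at this
    have := (mul_eq_zero.mp this.symm).resolve_left hcR
    have : d g + d g' = 0 := by exact_mod_cast this
    linarith
  have hsR : (d g : R) ^ 2 = 1 := by exact_mod_cast hg
  have hid : ∀ r, ψ (r * z) + ψ (r * -z) = ψ (r * (g' - g)) + ψ (r * -(g' - g)) := by
    intro r
    have a1 := hF r
    have a2 := hF (-r)
    rw [hs] at a1 a2
    push_cast at a1 a2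
    have e1 : -(-r * z) = r * z := by ring
    rw [e1] at a2
    have b1 : ψ (r * (g' - g)) = ψ (r * g') * ψ (-r * g) := by
      rw [← AddChar.map_add_eq_mul]; congr 1; ring
    have b2 : ψ (r * -(g' - g)) = ψ (r * g) * ψ (-r * g') := by
      rw [← AddChar.map_add_eq_mul]; congr 1; ring
    have b3 : ψ (r * g) * ψ (-r * g) = 1 := by rw [neg_mul]; exact chr_mul_neg ψ _
    have b4 : ψ (r * g') * ψ (-r * g') = 1 := by rw [neg_mul]; exact chr_mul_neg ψ _
    have b5 : ψ (r * -z) = ψ (-(r * z)) := by rw [mul_neg]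
    have b6 := chr_mul_neg ψ (r * z)
    rw [b1, b2, b5]
    have key : (1 - ψ (-(r * z))) * (1 - ψ (r * z)) * (FZ ψ f r * FZ ψ f (-r))
        = (1 - ψ (-(r * z))) * (1 - ψ (r * z)) * (c : R) ^ 2 := by
      by_cases hr : ψ (r * z) = 1
      · rw [hr]; ring
      · rw [h r hr]; push_cast; ring
    have key2 : (1 - ψ (-(r * z))) * (1 - ψ (r * z)) * (FZ ψ f r * FZ ψ f (-r))
        = (c : R) ^ 2 * ((d g : R) ^ 2 * ((ψ (r * g) - ψ (r * g')) * (ψ (-r * g) - ψ (-r * g')))) := by
      linear_combination ((1 - ψ (r * z)) * FZ ψ f (-r)) * a1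
        + (c * ((d g : R) * ψ (r * g) + -(d g : R) * ψ (r * g'))) * a2
    rw [key, hsR, mul_comm] at key2
    have key3 := mul_left_cancel₀ (pow_ne_zero 2 hcR) key2
    linear_combination -key3 - b3 - b4 + b6
  have hv : g' - g = z ∨ g' - g = -z := by
    by_contra hcon
    push Not at hcon
    have h1 : ∑ r, (ψ (r * (z - (g' - g))) + ψ (r * (-z - (g' - g))))
        = ∑ r, (ψ (r * 0) + ψ (r * (-(g' - g) - (g' - g)))) := by
      refine Finset.sum_congr rfl fun r _ => ?_
      have c1 : ∀ a, ψ (r * (a - (g' - g))) = ψ (r * a) * ψ (r * -(g' - g)) := by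
        intro a
        rw [← AddChar.map_add_eq_mul]; congr 1; ring
      have c2 : ψ (r * 0) = ψ (r * (g' - g)) * ψ (r * -(g' - g)) := by
        rw [← AddChar.map_add_eq_mul]; congr 1; ring
      rw [c1, c1, c1, c2, ← add_mul, hid r, add_mul]
    rw [Finset.sum_add_distrib, Finset.sum_add_distrib, orth hψ, orth hψ, orth hψ, orth hψ,
      if_neg (sub_ne_zero.mpr hcon.1.symm), if_neg (sub_ne_zero.mpr hcon.2.symm), if_pos rfl] at h1
    have hcard : 0 < Fintype.card H := Fintype.card_pos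
    split_ifs at h1
    · have : (0 : ℕ) + 0 = Fintype.card H + Fintype.card H := by exact_mod_cast h1
      omega
    · have : (0 : ℕ) + 0 = Fintype.card H + 0 := by exact_mod_cast h1
      omega
  have hsg : d g = 1 ∨ d g = -1 := by
    have : (d g - 1) * (d g + 1) = 0 := by linear_combination hg
    rcases mul_eq_zero.mp this with h1 | h1
    · left; linarith
    · right; linarith
  have main : ∃ (g : H) (s : ℤ), (s = 1 ∨ s = -1) ∧
      (∀ x, f x - f (x + z) = c * s * ((if x = g then 1 else 0) - (if x + z = g then 1 else 0))) := by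
    rcases hv with hv | hv
    · refine ⟨g', -d g, by omega, fun x => ?_⟩
      rw [hd, hform x, hs]
      have : x + z = g' ↔ x = g := by
        constructor
        · intro h1; linear_combination h1 + hv
        · intro h1; linear_combination h1 - hv
      simp only [this]
      split_ifs <;> ring
    · refine ⟨g, d g, hsg, fun x => ?_⟩
      rw [hd, hform x, hs]
      have : x + z = g ↔ x = g' := by
        constructor
        · intro h1; linear_combination h1 - hv
        · intro h1; linear_combination h1 + hv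
      simp only [this]
      split_ifs <;> ring
  obtain ⟨g0, s, hs0, hmain⟩ := main
  refine ⟨g0, s, hs0, hmain, fun r hr => ?_⟩
  have h1 : FZ ψ (fun x => f x - f (x + z)) r
      = FZ ψ (fun x => (if x = g0 then s * c else 0) - (if x + z = g0 then s * c else 0)) r := by
    congr 1
    funext x
    rw [hmain]
    split_ifs <;> ring
  rw [FZ_diff, FZ_diff ψ (fun x => if x = g0 then s * c else 0), FZ_delta] at h1
  exact mul_left_cancel₀ (sub_ne_zero.mpr (chr_neg_ne_one hr).symm) h1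

section prod

variable {A B : Type*} [CommRing A] [CommRing B]

omit [IsDomain R] [CharZero R] in
/-- Product of two additive characters. -/
def pc (ψ₁ : AddChar A R) (ψ₂ : AddChar B R) : AddChar (A × B) R where
  toFun x := ψ₁ x.1 * ψ₂ x.2
  map_zero_eq_one' := by simp
  map_add_eq_mul' x y := by
    simp only [Prod.fst_add, Prod.snd_add, AddChar.map_add_eq_mul]
    ring

omit [IsDomain R] [CharZero R] in
@[simp] theorem pc_apply (ψ₁ : AddChar A R) (ψ₂ : AddChar B R) (x : A × B) :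
    pc ψ₁ ψ₂ x = ψ₁ x.1 * ψ₂ x.2 := rfl

omit [IsDomain R] [CharZero R] in
theorem pc_prim {ψ₁ : AddChar A R} {ψ₂ : AddChar B R} (h₁ : ψ₁.IsPrimitive)
    (h₂ : ψ₂.IsPrimitive) : (pc ψ₁ ψ₂).IsPrimitive := by
  intro a ha hcon
  apply ha
  ext
  · by_contra h
    apply h₁ h
    ext x
    have := DFunLike.congr_fun hcon (x, 0)
    simpa using this
  · by_contra h
    apply h₂ h
    ext y
    have := DFunLike.congr_fun hcon (0, y)
    simpa using this

variable [Fintype A] [Fintype B]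

omit [IsDomain R] [CharZero R] in
theorem FZ_pc (ψ₁ : AddChar A R) (ψ₂ : AddChar B R) (f : A × B → ℤ) (k : A) (l : B) :
    FZ (pc ψ₁ ψ₂) f (k, l) = FT ψ₁ (fun x => FZ ψ₂ (fun y => f (x, y)) l) k := by
  unfold FZ FT
  rw [Fintype.sum_prod_type]
  refine Finset.sum_congr rfl fun x _ => ?_
  rw [Finset.sum_mul]
  refine Finset.sum_congr rfl fun y _ => ?_
  simp only [pc_apply, Prod.mk_mul_mk]
  ring

omit [IsDomain R] [CharZero R] in
theorem FZ_swap (ψ₁ : AddChar A R) (ψ₂ : AddChar B R) (f : A × B → ℤ) (k : A) (l : B) :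
    FZ (pc ψ₂ ψ₁) (fun x => f x.swap) (l, k) = FZ (pc ψ₁ ψ₂) f (k, l) := by
  unfold FZ FT
  rw [← Equiv.sum_comp (Equiv.prodComm A B)]
  refine Finset.sum_congr rfl fun x _ => ?_
  simp only [pc_apply, Equiv.prodComm_apply, Prod.swap_swap, Prod.fst_mul, Prod.snd_mul,
    Prod.fst_swap, Prod.snd_swap]
  ring

omit [IsDomain R] [CharZero R] in
theorem FZ_pc' (ψ₁ : AddChar A R) (ψ₂ : AddChar B R) (f : A × B → ℤ) (k : A) (l : B) :
    FZ (pc ψ₁ ψ₂) f (k, l) = FT ψ₂ (fun y => FZ ψ₁ (fun x => f (x, y)) k) l := by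
  rw [← FZ_swap, FZ_pc]
  rfl

omit [IsDomain R] [CharZero R] in
theorem FZ_pc_zero_right (ψ₁ : AddChar A R) (ψ₂ : AddChar B R) (f : A × B → ℤ) (k : A) :
    FZ (pc ψ₁ ψ₂) f (k, 0) = FZ ψ₁ (fun x => ∑ y, f (x, y)) k := by
  rw [FZ_pc]
  unfold FZ FT
  simp

omit [IsDomain R] [CharZero R] in
theorem FZ_pc_zero_left (ψ₁ : AddChar A R) (ψ₂ : AddChar B R) (f : A × B → ℤ) (l : B) :
    FZ (pc ψ₁ ψ₂) f (0, l) = FZ ψ₂ (fun y => ∑ x, f (x, y)) l := by
  rw [FZ_pc']
  unfold FZ FT
  simp

end prod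

end Pool.Agent.Lib.MP_d3ed34_co
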