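import Pool.Agent.Lib.MP_d3ed34_co.Fourier

set_option autoImplicit false
set_option linter.unusedSectionVars false

namespace Pool.Agent.Lib.MP_d3ed34_co

open Finset Polynomial

variable {R : Type*} [CommRing R] [IsDomain R] [CharZero R]
variable {r : ℕ} [hr : Fact r.Prime]

omit [IsDomain R] [CharZero R] in
theorem int_dvd_of_dvd (hnu : ¬ IsUnit (r : R)) {n : ℤ} (h : (r : R) ∣ (n : R)) : (r : ℤ) ∣ n := by
  by_contra hc
  have hp : Prime (r : ℤ) := Nat.prime_iff_prime_int.mp hr.out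
  have hco : IsCoprime (r : ℤ) n := (hp.irreducible.coprime_iff_not_dvd).mpr hc
  have hco' : IsCoprime ((r : ℤ) : R) (n : R) := hco.map (Int.castRingHom R)
  rw [Int.cast_natCast] at hco'
  exact hnu (hco'.isUnit_of_dvd h)

omit [IsDomain R] [CharZero R] in
theorem dvd_pow_sub_one (h2 : r ≠ 2) {w : R} {k : ℕ} (hw : w ^ (r ^ k) = 1) :
    (r : R) ∣ (w - 1) ^ (r ^ k) := by
  obtain ⟨t, ht⟩ := exists_add_pow_prime_pow_eq hr.out w (-1) k
  have hodd : Odd (r ^ k) := (hr.out.odd_of_ne_two h2).pow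
  rw [hw, hodd.neg_one_pow] at ht
  refine ⟨w * -1 * t, ?_⟩
  rw [sub_eq_add_neg, ht]
  ring

omit [IsDomain R] [CharZero R] in
theorem lam_dvd (hnu : ¬ IsUnit (r : R)) (h2 : r ≠ 2) {w : R} {k : ℕ} (hw : w ^ (r ^ k) = 1)
    {n : ℤ} (h : (w - 1) ∣ (n : R)) : (r : ℤ) ∣ n := by
  have h1 : (r : R) ∣ ((n ^ (r ^ k) : ℤ) : R) := by
    push_cast
    exact (dvd_pow_sub_one h2 hw).trans (pow_dvd_pow_of_dvd h _)
  exact (Nat.prime_iff_prime_int.mp hr.out).dvd_of_dvd_pow (int_dvd_of_dvd hnu h1)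

omit [CharZero R] in
theorem lam_pow_dvd {w : R} {k : ℕ} (hw : IsPrimitiveRoot w (r ^ (k + 1))) :
    (w - 1) ^ (Nat.totient (r ^ (k + 1))) ∣ (r : R) := by
  have hpos : 0 < r ^ (k + 1) := pow_pos hr.out.pos _
  have : NeZero (r ^ (k + 1)) := ⟨hpos.ne'⟩
  have h1 := eval_one_cyclotomic_prime_pow (R := R) (p := r) k
  rw [cyclotomic_eq_prod_X_sub_primitiveRoots hw, eval_prod] at h1
  rw [← h1, ← hw.card_primitiveRoots, ← Finset.prod_const]
  refine Finset.prod_dvd_prod_of_dvd _ _ fun μ hμ => ?_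
  rw [mem_primitiveRoots hpos] at hμ
  obtain ⟨i, -, rfl⟩ := hw.eq_pow_of_pow_eq_one hμ.pow_eq_one
  simp only [eval_sub, eval_X, eval_C]
  have := sub_dvd_pow_sub_pow w 1 i
  rw [one_pow] at this
  exact dvd_sub_comm.mp this

omit [CharZero R] in
theorem expand_at {w : R} {k : ℕ} (hw : IsPrimitiveRoot w (r ^ (k + 1))) (G : ℤ[X]) {i : ℕ}
    (hi : i < Nat.totient (r ^ (k + 1))) (hG : ∀ j < i, (r : ℤ) ∣ G.coeff j) :
    ∃ s, aeval (w - 1) G = (w - 1) ^ i * ((G.coeff i : R) + (w - 1) * s) := by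
  have h1 : (w - 1) ^ (i + 1) ∣ aeval (w - 1) G - (w - 1) ^ i * (G.coeff i : R) := by
    have hn : G.natDegree < max G.natDegree i + 1 := by omega
    rw [aeval_eq_sum_range' hn, ← Finset.add_sum_erase _ _ (a := i) (by simp)]
    rw [zsmul_eq_mul, mul_comm, add_sub_cancel_left]
    refine Finset.dvd_sum fun j hj => ?_
    have hji : j ≠ i := Finset.ne_of_mem_erase hj
    rw [zsmul_eq_mul]
    rcases lt_or_gt_of_ne hji with h | h
    · obtain ⟨c, hc⟩ := hG j h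
      rw [hc]
      push_cast
      refine Dvd.dvd.mul_right (Dvd.dvd.mul_right ?_ _) _
      exact (pow_dvd_pow _ (by omega)).trans (lam_pow_dvd hw)
    · exact Dvd.dvd.mul_left (pow_dvd_pow _ (by omega)) _
  obtain ⟨s, hs⟩ := h1
  exact ⟨s, by linear_combination hs⟩

theorem poly_div (hnu : ¬ IsUnit (r : R)) (h2 : r ≠ 2) {w w' : R} {k : ℕ}
    (hw : IsPrimitiveRoot w (r ^ (k + 1))) (hw' : IsPrimitiveRoot w' (r ^ (k + 1)))
    (hww : w * w' = 1) (F : ℤ[X]) (hd : (r : R) ^ 2 ∣ aeval w F * aeval w' F) :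
    ∃ Γ : ℤ[X], cyclotomic (r ^ (k + 1)) ℤ ∣ F - C (r : ℤ) * Γ := by
  have hpos : 0 < r ^ (k + 1) := pow_pos hr.out.pos _
  have hone : 1 < r ^ (k + 1) := Nat.one_lt_pow (by omega) hr.out.one_lt
  set Φ := cyclotomic (r ^ (k + 1)) ℤ with hΦ
  have hmon : Φ.Monic := cyclotomic.monic _ _
  have hdeg : Φ.natDegree = Nat.totient (r ^ (k + 1)) := natDegree_cyclotomic _ _
  have hφ : 0 < Nat.totient (r ^ (k + 1)) := Nat.totient_pos.mpr hpos
  have hne : Φ ≠ 1 := by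
    intro h
    rw [h, natDegree_one] at hdeg
    omega
  set G := taylor 1 (F %ₘ Φ) with hG
  have hGdeg : G.natDegree < Nat.totient (r ^ (k + 1)) := by
    rw [hG, natDegree_taylor, ← hdeg]
    exact natDegree_modByMonic_lt F hmon hne
  have hev : ∀ v : R, IsPrimitiveRoot v (r ^ (k + 1)) → aeval v F = aeval (v - 1) G := by
    intro v hv
    have h0 : aeval v Φ = 0 := by
      rw [hΦ, aeval_def, ← eval_map, map_cyclotomic]
      exact hv.isRoot_cyclotomic hpos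
    rw [hG, taylor_apply, aeval_comp]
    simp only [map_add, aeval_X, map_one, sub_add_cancel]
    conv_lhs => rw [← modByMonic_add_div F Φ]
    rw [map_add, map_mul, h0, zero_mul, add_zero]
  have hlam : w - 1 ≠ 0 := sub_ne_zero.mpr (hw.ne_one hone)
  have hall : ∀ i, i < Nat.totient (r ^ (k + 1)) → (r : ℤ) ∣ G.coeff i := by
    intro i
    induction i using Nat.strong_induction_on with
    | _ i ih =>
      intro hi
      have hj : ∀ j < i, (r : ℤ) ∣ G.coeff j := fun j hj => ih j hj (by omega)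
      obtain ⟨s, hs⟩ := expand_at hw G hi hj
      obtain ⟨s', hs'⟩ := expand_at hw' G hi hj
      rw [hev w hw, hev w' hw', hs, hs'] at hd
      have hw1 : w' - 1 = (-w') * (w - 1) := by linear_combination hww
      have h3 : (w - 1) ^ (2 * i + 1) ∣ (r : R) ^ 2 := by
        refine (pow_dvd_pow _ (show 2 * i + 1 ≤ Nat.totient (r ^ (k + 1)) * 2 by omega)).trans ?_
        rw [pow_mul]
        exact pow_dvd_pow_of_dvd (lam_pow_dvd hw) 2
      obtain ⟨t, ht⟩ := h3.trans hd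
      have h4 : (w - 1) ^ (2 * i) * ((-w') ^ i * (((G.coeff i : R) + (w - 1) * s)
          * ((G.coeff i : R) + (w' - 1) * s'))) = (w - 1) ^ (2 * i) * ((w - 1) * t) := by
        rw [← mul_assoc ((w - 1) ^ (2 * i)) (w - 1), ← pow_succ, ← ht]
        conv_rhs => rw [hw1, mul_pow]
        rw [hw1]
        ring
      have h5 := mul_left_cancel₀ (pow_ne_zero _ hlam) h4
      have h6 : (-w) ^ i * (-w') ^ i = 1 := by
        rw [← mul_pow, neg_mul_neg, hww, one_pow]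
      have h7 : (w - 1) ∣ ((G.coeff i ^ 2 : ℤ) : R) := by
        refine ⟨(-w) ^ i * t - s * (G.coeff i : R) + w' * s' * ((G.coeff i : R) + (w - 1) * s), ?_⟩
        push_cast
        rw [hw1] at h5
        linear_combination (-w) ^ i * h5 - (((G.coeff i : R) + (w - 1) * s)
          * ((G.coeff i : R) + (-w' * (w - 1)) * s')) * h6
      exact (Nat.prime_iff_prime_int.mp hr.out).dvd_of_dvd_pow
        (lam_dvd hnu h2 hw.pow_eq_one h7)
  have hC : C (r : ℤ) ∣ G := by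
    rw [C_dvd_iff_dvd_coeff]
    intro i
    by_cases hi : i < Nat.totient (r ^ (k + 1))
    · exact hall i hi
    · rw [coeff_eq_zero_of_natDegree_lt (by omega)]
      exact dvd_zero _
  obtain ⟨Γ, hΓ⟩ := hC
  refine ⟨taylor (-1) Γ, F /ₘ Φ, ?_⟩
  have h8 : F %ₘ Φ = C (r : ℤ) * taylor (-1) Γ := by
    have : taylor (-1) G = F %ₘ Φ := by
      rw [hG, taylor_taylor]
      simp
    rw [← this, hΓ, taylor_mul, taylor_C]
  rw [← h8]
  have := modByMonic_add_div F Φ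
  linear_combination -this

section zmod

variable {n : ℕ} [NeZero n]

omit [IsDomain R] [CharZero R] in
theorem chr_pow (e : AddChar (ZMod n) R) (k : ZMod n) (l : ℕ) : e k ^ l = e (k * l) := by
  rw [← AddChar.map_nsmul_eq_pow, nsmul_eq_mul, mul_comm]

omit [IsDomain R] [CharZero R] in
theorem chr_eq_one {e : AddChar (ZMod n) R} (he : e.IsPrimitive) (k : ZMod n) :
    e k = 1 ↔ k = 0 := he.zmod_char_eq_one_iff n k

omit [IsDomain R] [CharZero R] in
theorem chr_prim {e : AddChar (ZMod n) R} (he : e.IsPrimitive) {k : ZMod n} (hk : IsUnit k) :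
    IsPrimitiveRoot (e k) n := by
  refine ⟨by rw [chr_pow]; simp, fun l hl => ?_⟩
  rw [chr_pow, chr_eq_one he, hk.mul_right_eq_zero] at hl
  exact (ZMod.natCast_eq_zero_iff l n).mp hl

/-- The polynomial attached to a function on `ZMod n`. -/
noncomputable def toPoly (f : ZMod n → ℤ) : ℤ[X] := ∑ x, C (f x) * X ^ x.val

omit [IsDomain R] [CharZero R] in
theorem aeval_toPoly (e : AddChar (ZMod n) R) (f : ZMod n → ℤ) (k : ZMod n) :
    aeval (e k) (toPoly f) = FZ e f k := by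
  unfold toPoly FZ FT
  rw [map_sum]
  refine Finset.sum_congr rfl fun x _ => ?_
  simp [chr_pow]

omit [IsDomain R] [CharZero R] in
theorem exists_ofPoly (e : AddChar (ZMod n) R) (Γ : ℤ[X]) :
    ∃ γ : ZMod n → ℤ, ∀ k, FZ e γ k = aeval (e k) Γ := by
  induction Γ using Polynomial.induction_on' with
  | add p q hp hq =>
    obtain ⟨a, ha⟩ := hp
    obtain ⟨b, hb⟩ := hq
    exact ⟨fun x => a x + b x, fun k => by rw [FZ_add, ha, hb, map_add]⟩
  | monomial i a =>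
    refine ⟨fun x => if x = (i : ZMod n) then a else 0, fun k => ?_⟩
    rw [FZ_delta, aeval_monomial, chr_pow]
    simp

end zmod

theorem unit_iff (k : ZMod (r ^ 2)) : IsUnit k ↔ k * (r : ZMod (r ^ 2)) ≠ 0 := by
  have hpos := hr.out.pos
  conv_lhs => rw [← ZMod.natCast_zmod_val k]
  rw [ZMod.isUnit_natCast_iff_not_dvd_pow hr.out (by norm_num)]
  conv_rhs => rw [← ZMod.natCast_zmod_val k]
  rw [← Nat.cast_mul, Ne, ZMod.natCast_eq_zero_iff]
  generalize k.val = v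
  rw [sq, Nat.mul_dvd_mul_iff_right hpos]

omit [IsDomain R] [CharZero R] in
theorem chr_ne_one_iff {e : AddChar (ZMod (r ^ 2)) R} (he : e.IsPrimitive) (k : ZMod (r ^ 2)) :
    e (k * (r : ZMod (r ^ 2))) ≠ 1 ↔ IsUnit k := by
  rw [unit_iff, Ne, chr_eq_one he]

theorem r_ne_zero : (r : ZMod (r ^ 2)) ≠ 0 := by
  have := (unit_iff (1 : ZMod (r ^ 2))).mp isUnit_one
  simpa using this

theorem r_mul_r : (r : ZMod (r ^ 2)) * r = 0 := by
  rw [← Nat.cast_mul, ← sq, ZMod.natCast_self]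

/-- Division by `r` of Fourier coefficients of top conductor. -/
theorem lemD (hnu : ¬ IsUnit (r : R)) (h2 : r ≠ 2) {e : AddChar (ZMod (r ^ 2)) R}
    (he : e.IsPrimitive) (f : ZMod (r ^ 2) → ℤ) (hd : (r : R) ^ 2 ∣ FZ e f 1 * FZ e f (-1)) :
    ∃ γ : ZMod (r ^ 2) → ℤ, ∀ k, IsUnit k → FZ e f k = r * FZ e γ k := by
  have hw : IsPrimitiveRoot (e 1) (r ^ (1 + 1)) := chr_prim he isUnit_one
  have hw' : IsPrimitiveRoot (e (-1)) (r ^ (1 + 1)) := chr_prim he isUnit_one.neg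
  obtain ⟨Γ, q, hq⟩ := poly_div hnu h2 hw hw' (chr_mul_neg e 1) (toPoly f)
    (by rwa [aeval_toPoly, aeval_toPoly])
  obtain ⟨γ, hγ⟩ := exists_ofPoly e Γ
  refine ⟨γ, fun k hk => ?_⟩
  have h0 : aeval (e k) (cyclotomic (r ^ (1 + 1)) ℤ) = 0 := by
    rw [aeval_def, ← eval_map, map_cyclotomic]
    exact (chr_prim he hk).isRoot_cyclotomic (pow_pos hr.out.pos _)
  have := congrArg (aeval (e k)) hq
  rw [map_mul, h0, zero_mul, map_sub, aeval_toPoly, map_mul, ← hγ] at this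
  simp only [map_natCast] at this
  exact sub_eq_zero.mp this

theorem diff_dvd {e : AddChar (ZMod (r ^ 2)) R} (he : e.IsPrimitive) {f γ : ZMod (r ^ 2) → ℤ}
    {c : ℤ} (h : ∀ k, IsUnit k → FZ e f k = c * FZ e γ k) (x : ZMod (r ^ 2)) :
    c ∣ f x - f (x + (r : ZMod (r ^ 2))) := by
  have := periodic_FZ he (f := fun x => f x - c * γ x) (z := (r : ZMod (r ^ 2)))
    (fun k hk => by rw [FZ_sub, FZ_mul, h k ((chr_ne_one_iff he k).mp hk), sub_self]) x
  exact ⟨γ x - γ (x + (r : ZMod (r ^ 2))), by linear_combination -this⟩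

theorem lemD1 (hnu : ¬ IsUnit (r : R)) (h2 : r ≠ 2) {e : AddChar (ZMod (r ^ 2)) R}
    (he : e.IsPrimitive) (f : ZMod (r ^ 2) → ℤ) (hd : (r : R) ^ 2 ∣ FZ e f 1 * FZ e f (-1))
    (x : ZMod (r ^ 2)) : (r : ℤ) ∣ f x - f (x + (r : ZMod (r ^ 2))) := by
  obtain ⟨γ, hγ⟩ := lemD hnu h2 he f hd
  exact diff_dvd he (γ := γ) (fun k hk => by rw [hγ k hk]; simp) x

theorem lemD2 (hnu : ¬ IsUnit (r : R)) (h2 : r ≠ 2) {e : AddChar (ZMod (r ^ 2)) R}
    (he : e.IsPrimitive) (f : ZMod (r ^ 2) → ℤ) (h1 : (r : R) ^ 2 ∣ FZ e f 1)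
    (h1' : (r : R) ^ 2 ∣ FZ e f (-1)) (x : ZMod (r ^ 2)) : (r : ℤ) ^ 2 ∣ f x - f (x + (r : ZMod (r ^ 2))) := by
  have hrR : (r : R) ≠ 0 := by exact_mod_cast hr.out.ne_zero
  obtain ⟨γ, hγ⟩ := lemD hnu h2 he f (h1.mul_right _)
  rw [hγ 1 isUnit_one, sq] at h1
  rw [hγ (-1) isUnit_one.neg, sq] at h1'
  obtain ⟨γ', hγ'⟩ := lemD hnu h2 he γ (by
    rw [sq]
    exact mul_dvd_mul ((mul_dvd_mul_iff_left hrR).mp h1) ((mul_dvd_mul_iff_left hrR).mp h1'))
  exact diff_dvd he (γ := γ') (fun k hk => by rw [hγ k hk, hγ' k hk]; push_cast; ring) x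

/-- Digits in base `r`. -/
def dig (a : ZMod r × ZMod r) : ZMod (r ^ 2) := (a.1.val : ZMod (r ^ 2)) + (a.2.val : ZMod (r ^ 2)) * (r : ZMod (r ^ 2))

theorem dig_bij : Function.Bijective (dig (r := r)) := by
  rw [Fintype.bijective_iff_injective_and_card]
  refine ⟨fun a b hab => ?_, by simp [sq]⟩
  unfold dig at hab
  have h1 : ((a.1.val + a.2.val * r : ℕ) : ZMod (r ^ 2)) = ((b.1.val + b.2.val * r : ℕ) : ZMod (r ^ 2)) := by
    push_cast
    exact hab
  have ha1 := ZMod.val_lt a.1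
  have ha2 := ZMod.val_lt a.2
  have hb1 := ZMod.val_lt b.1
  have hb2 := ZMod.val_lt b.2
  have hlt : ∀ u v : ℕ, u < r → v < r → u + v * r < r ^ 2 := by
    intro u v hu hv
    have : (v + 1) * r ≤ r * r := Nat.mul_le_mul_right _ hv
    nlinarith
  rw [ZMod.natCast_eq_natCast_iff', Nat.mod_eq_of_lt (hlt _ _ ha1 ha2),
    Nat.mod_eq_of_lt (hlt _ _ hb1 hb2)] at h1
  have h2 : a.1.val = b.1.val := by
    have := congrArg (· % r) h1
    simpa [Nat.mod_eq_of_lt ha1, Nat.mod_eq_of_lt hb1] using this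
  have h3 : a.2.val = b.2.val := by
    rw [h2] at h1
    exact Nat.eq_of_mul_eq_mul_right hr.out.pos (by omega)
  exact Prod.ext (ZMod.val_injective _ h2) (ZMod.val_injective _ h3)

theorem sum_zmod_range {M : Type*} [AddCommMonoid M] (φ : ℕ → M) :
    ∑ j : ZMod r, φ j.val = ∑ j ∈ range r, φ j := by
  refine Finset.sum_bij (fun j _ => j.val) (fun j _ => by simpa using ZMod.val_lt j)
    (fun a _ b _ h => ZMod.val_injective _ h) (fun b hb => ?_) (fun _ _ => rfl)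
  exact ⟨(b : ZMod r), Finset.mem_univ _, ZMod.val_cast_of_lt (by simpa using hb)⟩

theorem sum_split {M : Type*} [AddCommMonoid M] (φ : ZMod (r ^ 2) → M) :
    ∑ x, φ x = ∑ i : ZMod r, ∑ j ∈ range r, φ ((i.val : ZMod (r ^ 2)) + (j : ZMod (r ^ 2)) * (r : ZMod (r ^ 2))) := by
  rw [← dig_bij.sum_comp φ, Fintype.sum_prod_type]
  refine Finset.sum_congr rfl fun i _ => ?_
  exact sum_zmod_range (fun j : ℕ => φ ((i.val : ZMod (r ^ 2)) + (j : ZMod (r ^ 2)) * (r : ZMod (r ^ 2))))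

theorem trichotomy (k : ZMod (r ^ 2)) :
    k = 0 ∨ (∃ m : ZMod (r ^ 2), IsUnit m ∧ k = m * (r : ZMod (r ^ 2))) ∨ IsUnit k := by
  by_cases hk : IsUnit k
  · exact Or.inr (Or.inr hk)
  · rw [← ZMod.natCast_zmod_val k, ZMod.isUnit_natCast_iff_not_dvd_pow hr.out (by norm_num),
      not_not] at hk
    obtain ⟨c, hc⟩ := hk
    have hk' : k = (c : ZMod (r ^ 2)) * r := by
      rw [← ZMod.natCast_zmod_val k, hc]
      push_cast
      ring
    by_cases hcu : IsUnit (c : ZMod (r ^ 2))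
    · exact Or.inr (Or.inl ⟨c, hcu, hk'⟩)
    · left
      rw [unit_iff, not_not] at hcu
      rw [hk', hcu]

end Pool.Agent.Lib.MP_d3ed34_co
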