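import Pool.Agent.Lib.MP_d3ed34_co.Lambda

set_option autoImplicit false
set_option linter.unusedSectionVars false

namespace Pool.Agent.Lib.MP_d3ed34_co

open Finset

variable {R : Type*} [CommRing R] [IsDomain R] [CharZero R]

theorem FZ_scale {H : Type*} [CommRing H] [Fintype H] (ψ : AddChar H R) (f : H → ℤ) {u v : H}
    (huv : u * v = 1) (r : H) : FZ ψ (fun x => f (v * x)) r = FZ ψ f (u * r) := by
  unfold FZ FT
  let E : H ≃ H :=
    { toFun := fun x => u * x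
      invFun := fun x => v * x
      left_inv := fun x => by simp only; rw [← mul_assoc, mul_comm v, huv, one_mul]
      right_inv := fun x => by simp only; rw [← mul_assoc, huv, one_mul] }
  rw [← Equiv.sum_comp E]
  refine Finset.sum_congr rfl fun x _ => ?_
  have h1 : v * E x = x := E.left_inv x
  have h2 : r * E x = u * r * x := by
    change r * (u * x) = _
    ring
  simp only [h1, h2]

theorem gal_FZ {A B : Type*} [CommRing A] [CommRing B] [Fintype A] [Fintype B]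
    {ψ₁ : AddChar A R} {ψ₂ : AddChar B R} {σ : R →+* R} {m₁ : A} {m₂ : B}
    (h₁ : ∀ x, σ (ψ₁ x) = ψ₁ (m₁ * x)) (h₂ : ∀ y, σ (ψ₂ y) = ψ₂ (m₂ * y)) (f : A × B → ℤ)
    (k : A) (l : B) : σ (FZ (pc ψ₁ ψ₂) f (k, l)) = FZ (pc ψ₁ ψ₂) f (m₁ * k, m₂ * l) := by
  unfold FZ FT
  rw [map_sum]
  refine Finset.sum_congr rfl fun x _ => ?_
  simp [h₁, h₂, mul_assoc]

theorem abs_sum_le {B : Type*} [Fintype B] {f : B → ℤ} {c : ℤ} (h : ∀ y, |f y| ≤ c) :
    |∑ y, f y| ≤ Fintype.card B * c := by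
  refine (Finset.abs_sum_le_sum_abs _ _).trans ?_
  refine (Finset.sum_le_sum fun y _ => h y).trans ?_
  simp

variable {p q : ℕ} [hp : Fact p.Prime] [hq : Fact q.Prime]

theorem coprime_R (hpq : p ≠ q) : IsCoprime (p : R) (q : R) := by
  have : IsCoprime (p : ℤ) (q : ℤ) :=
    Nat.isCoprime_iff_coprime.mpr ((Nat.coprime_primes hp.out hq.out).mpr hpq)
  simpa using this.map (Int.castRingHom R)

theorem lemmaA (hp2 : p ≠ 2) (hq2 : q ≠ 2) (hpq : p ≠ q) (hnu : ¬ IsUnit (p : R))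
    {e₁ : AddChar (ZMod (p ^ 2)) R} {e' : AddChar (ZMod q) R} (h₁ : e₁.IsPrimitive)
    (h' : e'.IsPrimitive)
    (hgal : ∀ m : ZMod (p ^ 2), IsUnit m → ∃ σ : R →+* R, (∀ x, σ (e₁ x) = e₁ (m * x)) ∧
      (∀ y, σ (e' y) = e' y) ∧ ∀ β : R, β ∣ (p : R) ^ 2 → β ∣ σ β)
    {A : ZMod (p ^ 2) × ZMod q → ℤ} (hA : ∀ h, |A h| ≤ 1)
    (hN : ∀ k l, IsUnit k → FZ (pc e₁ e') A (k, l) * FZ (pc e₁ e') A (-k, -l) = (p : R) ^ 2) :
    ∃ (e : ZMod (p ^ 2)) (W : ZMod q → ℤ),
      (∀ x y, A (x, y) - A (x + (p : ZMod (p ^ 2)), y)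
        = ((if x = e then 1 else 0) - (if x + (p : ZMod (p ^ 2)) = e then 1 else 0)) * W y) ∧
      ∀ l, FZ e' W l * FZ e' W (-l) = (p : R) ^ 2 := by
  have hψ := pc_prim h₁ h'
  set ψ := pc e₁ e' with hψdef
  have hpR : (p : R) ≠ 0 := by exact_mod_cast hp.out.ne_zero
  have hpZ : (p : ℤ) ≠ 0 := by exact_mod_cast hp.out.ne_zero
  have hz : ((p : ZMod (p ^ 2)), (0 : ZMod q)) ≠ 0 := fun h => r_ne_zero (congrArg Prod.fst h)
  have hψz : ∀ r : ZMod (p ^ 2) × ZMod q,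
      ψ (r * ((p : ZMod (p ^ 2)), (0 : ZMod q))) ≠ 1 ↔ IsUnit r.1 := by
    intro r
    rw [← chr_ne_one_iff h₁]
    simp [hψdef]
  have := ZMod.isCyclic_units_of_prime_pow p hp.out hp2 2
  obtain ⟨m, hm⟩ := IsCyclic.exists_monoid_generator (α := (ZMod (p ^ 2))ˣ)
  obtain ⟨σ, hσ1, hσ2, hσ3⟩ := hgal m m.isUnit
  have hσ : ∀ k l, σ (FZ ψ A (k, l)) = FZ ψ A (m * k, l) := by
    intro k l
    have := gal_FZ (m₂ := 1) hσ1 (fun y => by rw [hσ2, one_mul]) A k l
    rwa [one_mul] at this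
  set F : ZMod (p ^ 2) × ZMod q → ℤ :=
    fun c => ∑ h, A ((((m⁻¹ : (ZMod (p ^ 2))ˣ) : ZMod (p ^ 2)), (1 : ZMod q)) * (c + h)) * A h
    with hF
  have hFhat : ∀ k l, FZ ψ F (k, l) = FZ ψ A (m * k, l) * FZ ψ A (-k, -l) := by
    intro k l
    rw [hF, FZ_corr ψ (fun x => A ((((m⁻¹ : (ZMod (p ^ 2))ˣ) : ZMod (p ^ 2)), (1 : ZMod q)) * x)),
      FZ_scale ψ A (u := ((m : ZMod (p ^ 2)), (1 : ZMod q))) (by simp)]
    simp
  have hFdvd : ∀ k l, IsUnit k → (p : R) ^ 2 ∣ FZ ψ F (k, l) := by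
    intro k l hk
    obtain ⟨ε, hε⟩ := hσ3 (FZ ψ A (k, l)) ⟨_, (hN k l hk).symm⟩
    rw [hFhat, ← hσ, hε, ← hN k l hk]
    exact ⟨ε, by ring⟩
  have hFN : ∀ r, ψ (r * ((p : ZMod (p ^ 2)), (0 : ZMod q))) ≠ 1 →
      FZ ψ F r * FZ ψ F (-r) = (((p : ℤ) ^ 2) ^ 2 : ℤ) := by
    rintro ⟨k, l⟩ hr
    have hk : IsUnit k := (hψz _).mp hr
    have a1 := hN k l hk
    have a2 := hN (m * k) l (m.isUnit.mul hk)
    rw [Prod.neg_mk, hFhat, hFhat, neg_neg, neg_neg, mul_neg]
    push_cast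
    linear_combination (FZ ψ A (m * k, l) * FZ ψ A (-(m * k), -l)) * a1 + (p : R) ^ 2 * a2
  have hFd : ∀ h, (p : ℤ) ^ 2 ∣ F h - F (h + ((p : ZMod (p ^ 2)), (0 : ZMod q))) := by
    rintro ⟨x, y⟩
    have key : ∀ k, IsUnit k → (p : R) ^ 2 ∣ FZ e₁ (fun x => F (x, y)) k := by
      intro k hk
      have h3 := FT_inv h' (fun y => FZ e₁ (fun x => F (x, y)) k) y
      simp_rw [← FZ_pc'] at h3
      have h4 : (p : R) ^ 2 ∣ (Fintype.card (ZMod q) : R) * FZ e₁ (fun x => F (x, y)) k := by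
        rw [← h3]
        exact Finset.dvd_sum fun l _ => (hFdvd k l hk).mul_right _
      rw [ZMod.card] at h4
      exact (coprime_R hpq).pow_left.dvd_of_dvd_mul_left h4
    have := lemD2 hnu hp2 h₁ (fun x => F (x, y)) (key 1 isUnit_one) (key (-1) isUnit_one.neg) x
    simpa using this
  obtain ⟨⟨g₁, g₂⟩, s, hs, -, hg⟩ := kron hψ hz (pow_ne_zero 2 hpZ) hFN hFd
  have hstar : ∀ k l, IsUnit k →
      FZ ψ A (m * k, l) = s * (e₁ (k * g₁) * e' (l * g₂)) * FZ ψ A (k, l) := by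
    intro k l hk
    have a1 := hg (k, l) ((hψz _).mpr hk)
    rw [hFhat] at a1
    have a2 := hN k l hk
    apply mul_left_cancel₀ (pow_ne_zero 2 hpR)
    simp only [hψdef, pc_apply, Prod.mk_mul_mk] at a1
    push_cast at a1
    rw [← hψdef] at a1
    linear_combination FZ ψ A (k, l) * a1 - FZ ψ A (m * k, l) * a2
  -- projection
  have hproj : ∀ k, FZ e₁ (fun x => ∑ y, A (x, y)) k = FZ ψ A (k, 0) :=
    fun k => (FZ_pc_zero_right e₁ e' A k).symm
  have hPN : ∀ k, IsUnit k → FZ e₁ (fun x => ∑ y, A (x, y)) k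
      * FZ e₁ (fun x => ∑ y, A (x, y)) (-k) = (p : R) ^ 2 := by
    intro k hk
    have := hN k 0 hk
    rwa [neg_zero, ← hproj, ← hproj] at this
  obtain ⟨e, s₀, hs₀, he1, he2⟩ := kron h₁ (f := fun x => ∑ y, A (x, y)) r_ne_zero hpZ
    (fun k hk => by rw [hPN k ((chr_ne_one_iff h₁ k).mp hk)]; push_cast; ring)
    (lemD1 hnu hp2 h₁ _ (by rw [hPN 1 isUnit_one]))
  have hle : p ≤ 2 * q := by
    have a1 := he1 e
    have a2 : e + (p : ZMod (p ^ 2)) ≠ e := by simpa using r_ne_zero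
    rw [if_pos rfl, if_neg a2, ← Finset.sum_sub_distrib] at a1
    have a3 := abs_sum_le (f := fun y => A (e, y) - A (e + (p : ZMod (p ^ 2)), y)) (c := 2)
      (fun y => by
        have b1 := abs_le.mp (hA (e, y))
        have b2 := abs_le.mp (hA (e + (p : ZMod (p ^ 2)), y))
        rw [abs_le]
        constructor <;> linarith [b1.1, b1.2, b2.1, b2.2])
    rw [a1, ZMod.card] at a3
    rcases hs₀ with h | h <;> rw [h] at a3 <;> simp at a3 <;> omega
  have hs0R : (s₀ : R) ≠ 0 := by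
    rcases hs₀ with h | h <;> simp [h]
  have hsval : (s : R) * e₁ (g₁ + e) = e₁ (m * e) := by
    have a1 := hstar 1 0 isUnit_one
    rw [← hproj, ← hproj, he2 _ ((chr_ne_one_iff h₁ _).mpr (m.isUnit.mul isUnit_one)),
      he2 _ ((chr_ne_one_iff h₁ _).mpr isUnit_one)] at a1
    simp only [mul_one, one_mul, zero_mul, AddChar.map_zero_eq_one] at a1
    push_cast at a1
    apply mul_left_cancel₀ (mul_ne_zero hs0R hpR)
    rw [AddChar.map_add_eq_mul]
    linear_combination -a1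
  have hs1 : s = 1 := by
    rcases hs with h | h
    · exact h
    · exfalso
      have a1 := congrArg (· ^ (p ^ 2)) hsval
      have hodd : Odd (p ^ 2) := (hp.out.odd_of_ne_two hp2).pow
      simp only [h, mul_pow, chr_pow, ZMod.natCast_self, mul_zero, AddChar.map_zero_eq_one] at a1
      push_cast at a1
      rw [hodd.neg_one_pow] at a1
      have : (2 : R) = 0 := by linear_combination -a1
      exact two_ne_zero this
  have hg1 : g₁ = m * e - e := by
    rw [hs1] at hsval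
    have a1 : e₁ (g₁ + e - m * e) = 1 := by
      rw [sub_eq_add_neg, AddChar.map_add_eq_mul, ← chr_mul_neg e₁ (m * e), ← hsval]
      simp
    rw [chr_eq_one h₁] at a1
    linear_combination a1
  set B : ZMod (p ^ 2) × ZMod q → ℤ := fun h => A (h + (e, 0)) with hB
  have hBhat : ∀ k l, FZ ψ B (k, l) = e₁ (-(k * e)) * FZ ψ A (k, l) := by
    intro k l
    rw [hB, FZ_shift]
    simp [hψdef]
  have hBN : ∀ k l, IsUnit k → FZ ψ B (k, l) * FZ ψ B (-k, -l) = (p : R) ^ 2 := by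
    intro k l hk
    rw [hBhat, hBhat, neg_mul, neg_neg]
    have a1 := chr_mul_neg e₁ (k * e)
    have a2 := hN k l hk
    linear_combination (FZ ψ A (k, l) * FZ ψ A (-k, -l)) * a1 + a2
  have hB1 : ∀ k l, IsUnit k → FZ ψ B (m * k, l) = e' (l * g₂) * FZ ψ B (k, l) := by
    intro k l hk
    rw [hBhat, hBhat, hstar k l hk, hs1]
    have a1 : e₁ (-(m * k * e)) * e₁ (k * g₁) = e₁ (-(k * e)) := by
      rw [← AddChar.map_add_eq_mul, hg1]
      congr 1
      ring
    rw [← a1]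
    push_cast
    ring
  have hBn : ∀ (n : ℕ) l, FZ ψ B ((m : ZMod (p ^ 2)) ^ n, l) = e' (l * g₂) ^ n * FZ ψ B (1, l) := by
    intro n l
    induction n with
    | zero => simp
    | succ n ih =>
      rw [pow_succ' (m : ZMod (p ^ 2)) n, hB1 _ _ (m.isUnit.pow n), ih]
      ring
  have hg2 : g₂ = 0 := by
    have a1 := hBn (Nat.totient (p ^ 2)) 1
    have a2 : (m : ZMod (p ^ 2)) ^ (Nat.totient (p ^ 2)) = 1 := by
      rw [← Units.val_pow_eq_pow_val, ZMod.pow_totient, Units.val_one]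
    have a3 : FZ ψ B (1, 1) ≠ 0 := by
      intro h
      have := hBN 1 1 isUnit_one
      rw [h, zero_mul] at this
      exact pow_ne_zero 2 hpR this.symm
    rw [a2, chr_pow] at a1
    have a4 : e' (1 * g₂ * (Nat.totient (p ^ 2) : ℕ)) = 1 := by
      apply mul_right_cancel₀ a3
      rw [← a1, one_mul]
    rw [chr_eq_one h', one_mul] at a4
    refine (mul_eq_zero.mp a4).resolve_right ?_
    rw [ZMod.natCast_eq_zero_iff, Nat.totient_prime_pow hp.out (by norm_num)]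
    intro hd
    rcases (Nat.Prime.dvd_mul hq.out).mp hd with h | h
    · have := (Nat.prime_dvd_prime_iff_eq hq.out hp.out).mp (hq.out.dvd_of_dvd_pow h)
      exact hpq this.symm
    · obtain ⟨c, hc⟩ := h
      have hp1 := hp.out.two_le
      obtain ⟨a, ha⟩ := hp.out.odd_of_ne_two hp2
      obtain ⟨b, hb⟩ := hq.out.odd_of_ne_two hq2
      have hc2 : c < 2 := by
        by_contra hc2
        have : q * 2 ≤ q * c := Nat.mul_le_mul_left _ (by omega)
        omega
      interval_cases c <;> omega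
  have hBc : ∀ k l, IsUnit k → FZ ψ B (k, l) = FZ ψ B (1, l) := by
    intro k l hk
    obtain ⟨n, hn⟩ := hm hk.unit
    have : k = (m : ZMod (p ^ 2)) ^ n := by
      rw [← Units.val_pow_eq_pow_val]
      simp only at hn
      rw [hn, IsUnit.unit_spec]
    rw [this, hBn, hg2]
    simp
  set D : ZMod (p ^ 2) × ZMod q → ℤ :=
    fun h => B h - B (h + ((p : ZMod (p ^ 2)), (0 : ZMod q))) with hD
  have hDhat : ∀ k l, FZ ψ D (k, l) = (1 - e₁ (k * -(p : ZMod (p ^ 2)))) * FZ ψ B (1, l) := by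
    intro k l
    rw [hD, FZ_diff]
    have a1 : ψ (-((k, l) * ((p : ZMod (p ^ 2)), (0 : ZMod q)))) = e₁ (k * -(p : ZMod (p ^ 2))) := by
      simp [hψdef]
    rw [a1]
    by_cases hk : IsUnit k
    · rw [hBc k l hk]
    · rw [unit_iff, not_not] at hk
      rw [mul_neg, hk]
      simp
  have hW : ∀ l, FZ e' (fun y => D (0, y)) l = FZ ψ B (1, l) := by
    intro l
    have a1 := FT_inv h₁ (fun x => FZ e' (fun y => D (x, y)) l) 0
    simp_rw [← FZ_pc] at a1
    rw [← hψdef] at a1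
    simp_rw [hDhat] at a1
    simp only [mul_zero, neg_zero, AddChar.map_zero_eq_one, mul_one] at a1
    rw [← Finset.sum_mul, Finset.sum_sub_distrib, orth h₁, if_neg (neg_ne_zero.mpr r_ne_zero)] at a1
    simp only [Finset.sum_const, Finset.card_univ, nsmul_eq_mul, mul_one, sub_zero] at a1
    exact (mul_left_cancel₀ card_ne_zero' a1).symm
  have hDform : ∀ h, D h = ((if h.1 = 0 then 1 else 0)
      - (if h.1 + (p : ZMod (p ^ 2)) = 0 then 1 else 0)) * D (0, h.2) := by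
    refine FZ_ext hψ ?_
    rintro ⟨k, l⟩
    rw [hDhat]
    conv_rhs => rw [hψdef, FZ_pc]
    have a0 : ∀ x : ZMod (p ^ 2), FZ e' (fun y => ((if x = 0 then 1 else 0)
        - (if x + (p : ZMod (p ^ 2)) = 0 then 1 else 0)) * D (0, y)) l
        = (((if x = 0 then 1 else 0) - (if x + (p : ZMod (p ^ 2)) = 0 then 1 else 0) : ℤ) : R)
          * FZ ψ B (1, l) := by
      intro x
      rw [FZ_mul, hW]
    simp only [a0]
    have a1 := FZ_diff e₁ (fun x => if x = 0 then 1 else 0) (p : ZMod (p ^ 2)) k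
    rw [FZ_delta] at a1
    simp only [mul_zero, AddChar.map_zero_eq_one, Int.cast_one, mul_one] at a1
    rw [mul_neg, ← a1]
    unfold FZ FT
    rw [Finset.sum_mul]
    exact Finset.sum_congr rfl fun x _ => by ring
  refine ⟨e, fun y => D (0, y), fun x y => ?_, fun l => ?_⟩
  · have a1 := hDform (x - e, y)
    have a2 : x - e + (p : ZMod (p ^ 2)) = 0 ↔ x + (p : ZMod (p ^ 2)) = e := by
      constructor
      · intro h; linear_combination h
      · intro h; linear_combination h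
    simp only [sub_eq_zero, a2] at a1
    rw [← a1]
    simp only [hD, hB, Prod.mk_add_mk, add_zero]
    congr 3 <;> ring
  · rw [hW, hW, ← hBc (-1) (-l) isUnit_one.neg]
    exact hBN 1 l isUnit_one

end Pool.Agent.Lib.MP_d3ed34_co
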